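import Pool.Agent.R632.Port

/-! The affine automorphism adding every odd-indexed letter to the following letter, and a ping-pong
argument for the group generated by its states. -/

set_option linter.unusedSectionVars false

namespace Pool.Agent.R632.AffAut

open Port Port.W

variable {d : ℕ}

mutual
/-- labels of `ga c` -/
def gl (c : ZMod d) : List (ZMod d) → ZMod d
  | [] => 0
  | x :: w => hl c (c * x) w
/-- labels of `hb c e` -/
def hl (c e : ZMod d) : List (ZMod d) → ZMod d
  | [] => e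
  | _ :: w => gl c w
end

/-- adds `c` times the letters at even places to the next ones (the first place is place zero) -/
def ga (c : ZMod d) : W (ZMod d) := ⟨gl c⟩

/-- adds `e` to the first letter and `c` times the letters at odd places to the next ones -/
def hb (c e : ZMod d) : W (ZMod d) := ⟨hl c e⟩

lemma ga_root (c : ZMod d) : (ga c).l [] = 0 := by
  show gl c [] = 0
  rw [gl]

lemma hb_root (c e : ZMod d) : (hb c e).l [] = e := by
  show hl c e [] = e
  rw [hl]

lemma ga_sec (c x : ZMod d) : (ga c).sec x = hb c (c * x) := by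
  ext w
  show gl c (x :: w) = hl c (c * x) w
  rw [gl]

lemma hb_sec (c e x : ZMod d) : (hb c e).sec x = ga c := by
  ext w
  show hl c e (x :: w) = gl c w
  rw [hl]

lemma mul_aux (w : List (ZMod d)) : ∀ c c' : ZMod d,
    (ga c * ga c').l w = (ga (c + c')).l w ∧
      ∀ e e', (hb c e * hb c' e').l w = (hb (c + c') (e + e')).l w := by
  induction w with
  | nil =>
    intro c c'
    refine ⟨?_, ?_⟩
    · rw [mul_root, ga_root, ga_root, ga_root, add_zero]
    · intro e e'
      rw [mul_root, hb_root, hb_root, hb_root]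
  | cons x w ih =>
    intro c c'
    refine ⟨?_, ?_⟩
    · have h1 : (ga c * ga c').l (x :: w) = ((ga c * ga c').sec x).l w := rfl
      have h2 : (ga (c + c')).l (x :: w) = ((ga (c + c')).sec x).l w := rfl
      rw [h1, h2, sec_mul, ga_root, add_zero, ga_sec, ga_sec, ga_sec, (ih c c').2, add_mul]
    · intro e e'
      have h1 : (hb c e * hb c' e').l (x :: w) = ((hb c e * hb c' e').sec x).l w := rfl
      have h2 : (hb (c + c') (e + e')).l (x :: w) = ((hb (c + c') (e + e')).sec x).l w := rfl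
      rw [h1, h2, sec_mul, hb_sec, hb_sec, hb_sec, (ih c c').1]

lemma ga_mul (c c' : ZMod d) : ga c * ga c' = ga (c + c') := by
  ext w
  exact (mul_aux w c c').1

lemma hb_mul (c e c' e' : ZMod d) : hb c e * hb c' e' = hb (c + c') (e + e') := by
  ext w
  exact (mul_aux w c c').2 e e'

lemma ga_zero : ga (0 : ZMod d) = 1 := by
  have := ga_mul (0 : ZMod d) 0
  rw [add_zero] at this
  exact mul_eq_left.mp this

lemma hb_zero : hb (0 : ZMod d) 0 = 1 := by
  have := hb_mul (0 : ZMod d) 0 0 0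
  rw [add_zero] at this
  exact mul_eq_left.mp this

lemma ga_inv (c : ZMod d) : (ga c)⁻¹ = ga (-c) := by
  rw [inv_eq_iff_mul_eq_one, ga_mul, add_neg_cancel, ga_zero]

lemma hb_inv (c e : ZMod d) : (hb c e)⁻¹ = hb (-c) (-e) := by
  rw [inv_eq_iff_mul_eq_one, hb_mul, add_neg_cancel, add_neg_cancel, hb_zero]

/-- coordinates of the images of words -/
lemma coord (w : List (ZMod d)) : ∀ (c : ZMod d) (j : ℕ), j < w.length →
    (((ga c).act w).getD j 0 = w.getD j 0 + if j % 2 = 1 then c * w.getD (j - 1) 0 else 0) ∧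
    ∀ e, ((hb c e).act w).getD j 0 = w.getD j 0 +
      if j = 0 then e else if j % 2 = 0 then c * w.getD (j - 1) 0 else 0 := by
  induction w with
  | nil => intro c j hj; simp at hj
  | cons x w ih =>
    intro c j hj
    cases j with
    | zero =>
      refine ⟨?_, ?_⟩
      · simp [act, ga_root]
      · intro e
        simp [act, hb_root]
    | succ j =>
      have hj' : j < w.length := by simpa using hj
      refine ⟨?_, ?_⟩
      · rw [act, List.getD_cons_succ, ga_sec, (ih c j hj').2, List.getD_cons_succ]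
        congr 1
        cases j with
        | zero => simp
        | succ j =>
          have h1 : (j + 1 + 1) % 2 = 1 ↔ (j + 1) % 2 = 0 := by omega
          simp only [Nat.add_eq_zero_iff, one_ne_zero, and_false, if_false, h1,
            Nat.add_sub_cancel, List.getD_cons_succ]
      · intro e
        rw [act, List.getD_cons_succ, hb_sec, (ih c j hj').1, List.getD_cons_succ]
        congr 1
        rw [if_neg (Nat.succ_ne_zero j)]
        cases j with
        | zero => simp
        | succ j =>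
          have h1 : (j + 1 + 1) % 2 = 0 ↔ (j + 1) % 2 = 1 := by omega
          simp only [h1, Nat.add_sub_cancel, List.getD_cons_succ]

/-- the last nonzero letter of `w` is a unit and is at place `i` -/
def Top (N i : ℕ) (w : List (ZMod d)) : Prop :=
  w.length = N ∧ IsUnit (w.getD i 0) ∧ ∀ j, i < j → w.getD j 0 = 0

/-- `g` moves the last nonzero letter by `k` places, if it was at a place of the parity of `p` -/
def Up (p k : ℕ) (g : W (ZMod d)) : Prop :=
  ∀ N i w, i % 2 = p % 2 → i + k < N → Top N i w → Top N (i + k) (g.act w)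

lemma getD_of_le (w : List (ZMod d)) (j : ℕ) (h : w.length ≤ j) : w.getD j 0 = 0 :=
  List.getD_eq_default _ _ h

lemma up_ga {c : ZMod d} (hc : IsUnit c) : Up 0 1 (ga c) := by
  intro N i w hi hN ⟨h1, h2, h3⟩
  refine ⟨by rw [act_length, h1], ?_, ?_⟩
  · rw [(coord w c (i + 1) (by omega)).1, h3 (i + 1) (by omega), if_pos (by omega), zero_add,
      Nat.add_sub_cancel]
    exact hc.mul h2
  · intro j hj
    by_cases hjN : j < w.length
    · rw [(coord w c j hjN).1, h3 j (by omega)]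
      split_ifs with h
      · rw [h3 (j - 1) (by omega)]
        ring
      · ring
    · exact getD_of_le _ _ (by rw [act_length]; omega)

lemma up_hb {c : ZMod d} (hc : IsUnit c) : Up 1 1 (hb c 0) := by
  intro N i w hi hN ⟨h1, h2, h3⟩
  refine ⟨by rw [act_length, h1], ?_, ?_⟩
  · rw [(coord w c (i + 1) (by omega)).2, h3 (i + 1) (by omega), if_neg (by omega),
      if_pos (by omega), zero_add, Nat.add_sub_cancel]
    exact hc.mul h2
  · intro j hj
    by_cases hjN : j < w.length
    · rw [(coord w c j hjN).2, h3 j (by omega), if_neg (by omega)]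
      split_ifs with h
      · rw [h3 (j - 1) (by omega)]
        ring
      · ring
    · exact getD_of_le _ _ (by rw [act_length]; omega)

lemma Up.comp {p k l : ℕ} {g h : W (ZMod d)} (hg : Up p k g) (hh : Up (p + k) l h) :
    Up p (k + l) (h * g) := by
  intro N i w hi hN hw
  rw [act_mul, ← add_assoc]
  exact hh N (i + k) _ (by omega) (by omega) (hg N i w hi (by omega) hw)

lemma Up.congr {p q k : ℕ} {g : W (ZMod d)} (hg : Up p k g) (h : p % 2 = q % 2) : Up q k g := by
  intro N i w hi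
  exact hg N i w (by omega)

lemma Up.pow {p k : ℕ} {g : W (ZMod d)} (hg : Up p k g) (hk : k % 2 = 0) (n : ℕ) :
    Up p (n * k) (g ^ n) := by
  induction n with
  | zero =>
    intro N i w hi hN hw
    rw [pow_zero, act_one]
    simpa using hw
  | succ n ih =>
    rw [pow_succ', Nat.succ_mul]
    refine ih.comp (hg.congr ?_)
    have : (n * k) % 2 = 0 := by
      rw [Nat.mul_mod, hk]
      simp
    omega

lemma Up.ne_one [Fact (1 < d)] {k : ℕ} {g : W (ZMod d)} (hg : Up 0 k g) (hk : 0 < k) : g ≠ 1 := by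
  rintro rfl
  have h1 : Top (k + 1) 0 ((1 : ZMod d) :: List.replicate k 0) := by
    refine ⟨by simp, by simp, ?_⟩
    intro j hj
    obtain ⟨j, rfl⟩ : ∃ i, j = i + 1 := ⟨j - 1, by omega⟩
    rw [List.getD_cons_succ]
    by_cases h : j < k
    · simp [h]
    · exact getD_of_le _ _ (by simp; omega)
  have h2 := hg (k + 1) 0 _ rfl (by omega) h1
  rw [act_one] at h2
  have h3 := h2.2.1
  rw [zero_add, h1.2.2 k hk] at h3
  exact not_isUnit_zero h3

lemma pow_shift {G : Type*} [Group G] (a b : G) (k : ℕ) : (b * a) ^ (k + 1) = b * (a * b) ^ k * a := by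
  induction k with
  | zero => simp
  | succ k ih =>
    rw [pow_succ, ih, pow_succ]
    group

/-- the commutators of powers of `b a` and `b⁻¹ a⁻¹` have order not dividing `n` for any `n > 0` -/
theorem comm_ne [Fact (1 < d)] (h2 : IsUnit (2 : ZMod d)) (m n : ℕ) (hm : 0 < m) (hn : 0 < n) :
    ((hb (1 : ZMod d) 0 * ga 1) ^ m * ((hb (1 : ZMod d) 0)⁻¹ * (ga 1)⁻¹) ^ m *
      ((hb (1 : ZMod d) 0 * ga 1) ^ m)⁻¹ * (((hb (1 : ZMod d) 0)⁻¹ * (ga 1)⁻¹) ^ m)⁻¹) ^ n ≠ 1 := by
  obtain ⟨k, rfl⟩ : ∃ k, m = k + 1 := ⟨m - 1, by omega⟩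
  set a : W (ZMod d) := ga 1 with ha
  set b : W (ZMod d) := hb 1 0 with hb'
  have u1 : IsUnit (1 : ZMod d) := isUnit_one
  have um1 : IsUnit (-1 : ZMod d) := u1.neg
  have hA : Up 0 1 a := up_ga u1
  have hB : Up 1 1 b := up_hb u1
  have hA' : Up 0 1 a⁻¹ := by rw [ha, ga_inv]; exact up_ga um1
  have hB' : Up 1 1 b⁻¹ := by rw [hb', hb_inv, neg_zero]; exact up_hb um1
  have hA2 : Up 0 1 (a⁻¹ * a⁻¹) := by
    rw [ha, ga_inv, ga_mul]
    exact up_ga (by rw [show (-1 + -1 : ZMod d) = -2 by ring]; exact h2.neg)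
  have hB2 : Up 1 1 (b * b) := by
    rw [hb', hb_mul, add_zero]
    exact up_hb (by rw [show (1 + 1 : ZMod d) = 2 by ring]; exact h2)
  intro h
  have key : b * ((b * a) ^ (k + 1) * (b⁻¹ * a⁻¹) ^ (k + 1) * ((b * a) ^ (k + 1))⁻¹ *
      ((b⁻¹ * a⁻¹) ^ (k + 1))⁻¹) * b⁻¹ = (b * b) * ((a * b) ^ k * (a * (b⁻¹ * ((a⁻¹ * b⁻¹) ^ k *
        ((a⁻¹ * a⁻¹) * ((b⁻¹ * a⁻¹) ^ k * (b⁻¹ * (a * (b * a) ^ k)))))))) := by
    have e1 : ((b * a) ^ (k + 1))⁻¹ = a⁻¹ * (b⁻¹ * a⁻¹) ^ k * b⁻¹ := by
      rw [← pow_shift b⁻¹ a⁻¹, ← inv_pow]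
      congr 1
      group
    have e2 : ((b⁻¹ * a⁻¹) ^ (k + 1))⁻¹ = a * (b * a) ^ k * b := by
      rw [← pow_shift b a, ← inv_pow]
      congr 1
      group
    rw [e1, e2, pow_shift a b k, pow_shift a⁻¹ b⁻¹ k]
    group
  have hup : Up 0 (k * 2 + 1 + 1 + k * 2 + 1 + k * 2 + 1 + 1 + k * 2 + 1) (b * ((b * a) ^ (k + 1) *
      (b⁻¹ * a⁻¹) ^ (k + 1) * ((b * a) ^ (k + 1))⁻¹ * ((b⁻¹ * a⁻¹) ^ (k + 1))⁻¹) * b⁻¹) := by
    rw [key]
    have s0 : Up 0 (k * 2) ((b * a) ^ k) := (hA.comp hB).pow rfl k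
    have s1 : Up 0 (k * 2 + 1) (a * (b * a) ^ k) := s0.comp (hA.congr (by omega))
    have s2 : Up 0 (k * 2 + 1 + 1) (b⁻¹ * (a * (b * a) ^ k)) := s1.comp (hB'.congr (by omega))
    have t3 : Up 0 (k * 2) ((b⁻¹ * a⁻¹) ^ k) := (hA'.comp hB').pow rfl k
    have s3 := s2.comp (t3.congr (q := 0 + (k * 2 + 1 + 1)) (by omega))
    have s4 := s3.comp (hA2.congr (q := 0 + (k * 2 + 1 + 1 + k * 2)) (by omega))
    have t5 : Up 1 (k * 2) ((a⁻¹ * b⁻¹) ^ k) := (hB'.comp (hA'.congr rfl)).pow rfl k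
    have s5 := s4.comp (t5.congr (q := 0 + (k * 2 + 1 + 1 + k * 2 + 1)) (by omega))
    have s6 := s5.comp (hB'.congr (q := 0 + (k * 2 + 1 + 1 + k * 2 + 1 + k * 2)) (by omega))
    have s7 := s6.comp (hA.congr (q := 0 + (k * 2 + 1 + 1 + k * 2 + 1 + k * 2 + 1)) (by omega))
    have t8 : Up 1 (k * 2) ((a * b) ^ k) := (hB.comp (hA.congr rfl)).pow rfl k
    have s8 := s7.comp (t8.congr (q := 0 + (k * 2 + 1 + 1 + k * 2 + 1 + k * 2 + 1 + 1)) (by omega))
    have s9 := s8.comp (hB2.congr (q := 0 + (k * 2 + 1 + 1 + k * 2 + 1 + k * 2 + 1 + 1 + k * 2))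
      (by omega))
    exact s9
  have h3 := (hup.pow (by omega) n).ne_one (by positivity)
  apply h3
  rw [conj_pow, h]
  group

end Pool.Agent.R632.AffAut
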