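import Pool.Agent.R632.Port

/-! Self-replicating groups of portraits which are regular branch over their commutator subgroup. -/

set_option linter.unusedSectionVars false

namespace Pool.Agent.R632.Port

namespace W

open scoped commutatorElement

variable {X : Type} [AddCommGroup X] [DecidableEq X] [Finite X]

/-- the rooted element -/
def al (s : X) : W X := ⟨fun w => match w with
  | [] => s
  | _ :: _ => 0⟩

lemma al_root (s : X) : (al s).l [] = s := rfl

lemma al_sec (s x : X) : (al s).sec x = 1 := rfl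

lemma al_mul (s t : X) : al s * al t = al (s + t) := by
  apply ext'
  · rfl
  · intro x
    rw [sec_mul, al_sec, al_sec, al_sec, one_mul]

lemma al_zero : al (0 : X) = 1 := by
  apply ext'
  · rfl
  · intro x; rfl

lemma al_inv (s : X) : (al s)⁻¹ = al (-s) := by
  rw [inv_eq_iff_mul_eq_one, al_mul, add_neg_cancel, al_zero]

/-- `K` is a self-similar self-replicating group containing the rooted elements and regular branch
over its commutator subgroup, with finite abelianization -/
structure Nice (K : Subgroup (W X)) : Prop where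
  al_mem : ∀ s : X, al s ∈ K
  sec_mem : ∀ g ∈ K, ∀ x, g.sec x ∈ K
  lift : ∀ h ∈ K, ∀ x, ∃ k ∈ K, k.l [] = 0 ∧ k.sec x = h
  at1_mem : ∀ d ∈ ⁅K, K⁆, ∀ x, at1 x d ∈ ⁅K, K⁆
  ab : (⁅K, K⁆).relIndex K ≠ 0

/-- iterated finite products -/
def Pow (D : Subgroup (W X)) : ℕ → Subgroup (W X)
  | 0 => D
  | n + 1 => (Subgroup.pi Set.univ (fun _ : X => Pow D n)).map node

lemma mem_Pow_succ {D : Subgroup (W X)} {n : ℕ} {g : W X} :
    g ∈ Pow D (n + 1) ↔ g.l [] = 0 ∧ ∀ x, g.sec x ∈ Pow D n := by
  constructor
  · rintro ⟨f, hf, rfl⟩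
    exact ⟨rfl, fun x => hf x trivial⟩
  · rintro ⟨h0, h⟩
    exact ⟨g.sec, fun x _ => h x, node_sec_eq h0⟩

lemma Pow_le_of {D : Subgroup (W X)} (n : ℕ) (M : Subgroup (W X))
    (h : ∀ v : List X, v.length = n → ∀ g ∈ D, put v g ∈ M) : Pow D n ≤ M := by
  induction n generalizing M with
  | zero =>
    intro g hg
    exact h [] rfl g hg
  | succ n ih =>
    intro g hg
    obtain ⟨f, hf, rfl⟩ := hg
    have : f ∈ M.comap node := by
      apply Subgroup.pi_mem_of_mulSingle_mem
      intro x
      rw [Subgroup.mem_comap]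
      have h1 : Pow D n ≤ M.comap (at1 x) := by
        apply ih
        intro v hv g hg
        rw [Subgroup.mem_comap, ← put_cons]
        exact h (x :: v) (by simp [hv]) g hg
      exact h1 (hf x trivial)
    exact this

lemma Nice.put_mem {K : Subgroup (W X)} (hK : Nice K) {d : W X} (hd : d ∈ ⁅K, K⁆) (v : List X) :
    put v d ∈ ⁅K, K⁆ := by
  induction v with
  | nil => exact hd
  | cons x v ih => exact hK.at1_mem _ ih x

lemma commutator_le_self (K : Subgroup (W X)) : ⁅K, K⁆ ≤ K := by
  rw [Subgroup.commutator_le]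
  intro g hg h hh
  exact K.mul_mem (K.mul_mem (K.mul_mem hg hh) (K.inv_mem hg)) (K.inv_mem hh)

lemma conj_mem_commutator {K : Subgroup (W X)} {k d : W X} (hk : k ∈ K) (hd : d ∈ ⁅K, K⁆) :
    k * d * k⁻¹ ∈ ⁅K, K⁆ := by
  have h1 : k * d * k⁻¹ = ⁅k, d⁆ * d := by
    rw [commutatorElement_def]
    group
  rw [h1]
  exact Subgroup.mul_mem _ (Subgroup.commutator_mem_commutator hk (commutator_le_self K hd)) hd

lemma Nice.pow_le {K : Subgroup (W X)} (hK : Nice K) (n : ℕ) : Pow ⁅K, K⁆ n ≤ ⁅K, K⁆ :=
  Pow_le_of n _ fun v _ _ hg => hK.put_mem hg v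

lemma Nice.secv_mem {K : Subgroup (W X)} (hK : Nice K) {g : W X} (hg : g ∈ K) (v : List X) :
    g.secv v ∈ K := by
  induction v generalizing g with
  | nil => exact hg
  | cons x v ih => exact ih (hK.sec_mem g hg x)

lemma Nice.transitive {K : Subgroup (W X)} (hK : Nice K) : ∀ v w : List X,
    v.length = w.length → ∃ k ∈ K, k.act v = w := by
  intro v
  induction v with
  | nil =>
    intro w hw
    exact ⟨1, K.one_mem, by rw [act_one, (List.length_eq_zero_iff.mp hw.symm)]⟩
  | cons x v ih =>
    intro w hw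
    cases w with
    | nil => simp at hw
    | cons y w =>
      obtain ⟨k, hk, hkv⟩ := ih w (by simpa using hw)
      obtain ⟨k', hk', h0, h1⟩ := hK.lift k hk x
      refine ⟨al (y - x) * k', K.mul_mem (hK.al_mem _) hk', ?_⟩
      rw [act_mul]
      simp only [act, h0, h1, hkv, al_root, al_sec, act_one]
      congr 1
      abel

/-- the root label as a homomorphism -/
def rootHom : W X →* Multiplicative X where
  toFun g := Multiplicative.ofAdd (g.l [])
  map_one' := rfl
  map_mul' g h := by
    rw [mul_root]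
    rfl

lemma St1_eq : (St1 : Subgroup (W X)) = rootHom.ker := by
  ext g
  rfl

lemma Nice.index_pow {K : Subgroup (W X)} (hK : Nice K) (n : ℕ) :
    (Pow ⁅K, K⁆ n).relIndex K ≠ 0 := by
  induction n with
  | zero => exact hK.ab
  | succ n ih =>
    have h0 : Pow ⁅K, K⁆ (n + 1) ≤ K ⊓ St1 := by
      intro g hg
      exact ⟨commutator_le_self K (hK.pow_le _ hg), (mem_Pow_succ.mp hg).1⟩
    rw [← Subgroup.relIndex_mul_relIndex _ (K ⊓ St1) _ h0 inf_le_left]
    apply mul_ne_zero
    · let s : X → (↥(K ⊓ St1) →* W X) := fun x =>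
        { toFun := fun g => g.1.sec x
          map_one' := rfl
          map_mul' := fun g h => sec_mul_of (g := g.1) (h := h.1) h.2.2 x }
      have h1 : (Pow ⁅K, K⁆ (n + 1)).subgroupOf (K ⊓ St1) = ⨅ x, (Pow ⁅K, K⁆ n).comap (s x) := by
        ext g
        rw [Subgroup.mem_subgroupOf, Subgroup.mem_iInf, mem_Pow_succ]
        constructor
        · rintro ⟨_, h⟩ x
          exact h x
        · intro h
          exact ⟨g.2.2, h⟩
      have h2 : ∀ x, ((Pow ⁅K, K⁆ n).comap (s x)).FiniteIndex := by
        intro x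
        constructor
        rw [Subgroup.index_comap]
        have h3 : (s x).range ≤ K := by
          rintro _ ⟨g, rfl⟩
          exact hK.sec_mem g.1 g.2.1 x
        intro h4
        exact ih (Subgroup.relIndex_eq_zero_of_le_right h3 h4)
      have h3 : ((Pow ⁅K, K⁆ (n + 1)).subgroupOf (K ⊓ St1)).FiniteIndex := by
        rw [h1]
        exact Subgroup.finiteIndex_iInf h2
      exact h3.index_ne_zero
    · rw [Subgroup.inf_relIndex_left, St1_eq]
      have : (rootHom (X := X)).ker.FiniteIndex := by
        have : Finite (Multiplicative X) := inferInstanceAs (Finite X)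
        infer_instance
      have h2 := Subgroup.relIndex_dvd_index_of_normal (rootHom (X := X)).ker K
      intro h3
      rw [h3] at h2
      exact this.index_ne_zero (Nat.eq_zero_of_zero_dvd h2)

/-- the rigid level stabilizer, for portraits -/
def RistW (K : Subgroup (W X)) (n : ℕ) : Subgroup (W X) :=
  Subgroup.closure {g | g ∈ K ∧ ∃ v : List X, v.length = n ∧ ∀ w, ¬ v <+: w → g.act w = w}

lemma Nice.rist {K : Subgroup (W X)} (hK : Nice K) (n : ℕ) : (RistW K n).relIndex K ≠ 0 := by
  have h1 : Pow ⁅K, K⁆ n ≤ RistW K n := by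
    apply Pow_le_of
    intro v hv g hg
    apply Subgroup.subset_closure
    exact ⟨commutator_le_self K (hK.put_mem hg v), v, hv, fun w hw => put_act_of_not g hw⟩
  intro h2
  exact hK.index_pow n (Subgroup.relIndex_eq_zero_of_le_left h1 h2)

end W

end Pool.Agent.R632.Port
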