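import Pool.Agent.R632.Branch

/-! The Fabrykowski-Gupta group `H = ⟨a, b⟩`, `b = (a, 1, b)`, inside `G = ⟨a, b, c⟩`,
`c = (a, 1, c⁻¹)`, on the ternary tree. -/

set_option linter.unusedSectionVars false

namespace Pool.Agent.R632.FG

open Port Port.W
open scoped commutatorElement

/-- portraits on the ternary tree -/
abbrev WW := W (ZMod 3)

/-- labels of `b ^ i * c ^ j` -/
def beL : ZMod 3 → ZMod 3 → List (ZMod 3) → ZMod 3
  | _, _, [] => 0
  | i, j, x :: w => if x = 0 then (al (i + j)).l w else if x = 1 then 0 else beL i (-j) w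

/-- the element `b ^ i * c ^ j` -/
def be (i j : ZMod 3) : WW := ⟨beL i j⟩

lemma be_root (i j : ZMod 3) : (be i j).l [] = 0 := rfl

lemma be_sec0 (i j : ZMod 3) : (be i j).sec 0 = al (i + j) := rfl

lemma be_sec1 (i j : ZMod 3) : (be i j).sec 1 = 1 := rfl

lemma be_sec2 (i j : ZMod 3) : (be i j).sec 2 = be i (-j) := rfl

lemma three_cases (x : ZMod 3) : x = 0 ∨ x = 1 ∨ x = 2 := by
  revert x
  decide

lemma be_mul (i j i' j' : ZMod 3) : be i j * be i' j' = be (i + i') (j + j') := by
  ext w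
  induction w generalizing i j i' j' with
  | nil => rfl
  | cons x w ih =>
    have h1 : (be i j * be i' j').l (x :: w) = ((be i j).sec x * (be i' j').sec x).l w := by
      rw [← sec_mul_of (be_root i' j')]
      rfl
    have h2 : (be (i + i') (j + j')).l (x :: w) = ((be (i + i') (j + j')).sec x).l w := rfl
    rw [h1, h2]
    rcases three_cases x with rfl | rfl | rfl
    · rw [be_sec0, be_sec0, be_sec0, al_mul]
      congr 2
      ring
    · rw [be_sec1, be_sec1, be_sec1, mul_one]
    · rw [be_sec2, be_sec2, be_sec2, ih]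
      congr 2
      ring

lemma be_zero : be 0 0 = 1 := by
  have := be_mul 0 0 0 0
  rw [add_zero] at this
  exact mul_eq_left.mp this

lemma be_inv (i j : ZMod 3) : (be i j)⁻¹ = be (-i) (-j) := by
  rw [inv_eq_iff_mul_eq_one, be_mul, add_neg_cancel, add_neg_cancel, be_zero]

lemma be_comm (i j i' j' : ZMod 3) : be i j * be i' j' = be i' j' * be i j := by
  rw [be_mul, be_mul, add_comm i, add_comm j]

/-- the group generated by `a` and the `b ^ i * c ^ j` with `(i, j) ∈ J` -/
def K (J : AddSubgroup (ZMod 3 × ZMod 3)) : Subgroup WW :=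
  Subgroup.closure ({al 1} ∪ {g | ∃ p ∈ J, g = be p.1 p.2})

section

variable {J : AddSubgroup (ZMod 3 × ZMod 3)}

lemma al_mem (s : ZMod 3) : al s ∈ K J := by
  have h1 : al 1 ∈ K J := Subgroup.subset_closure (Or.inl rfl)
  rcases three_cases s with rfl | rfl | rfl
  · rw [al_zero]; exact Subgroup.one_mem _
  · exact h1
  · have : al (2 : ZMod 3) = al 1 * al 1 := by
      rw [al_mul]
      rfl
    rw [this]
    exact Subgroup.mul_mem _ h1 h1

lemma be_mem {p : ZMod 3 × ZMod 3} (hp : p ∈ J) : be p.1 p.2 ∈ K J :=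
  Subgroup.subset_closure (Or.inr ⟨p, hp, rfl⟩)

/-- conjugate of `be` by a rooted element -/
def cb (t : ZMod 3) (p : ZMod 3 × ZMod 3) : WW := al t * be p.1 p.2 * al (-t)

lemma cb_mem (t : ZMod 3) {p : ZMod 3 × ZMod 3} (hp : p ∈ J) : cb t p ∈ K J :=
  Subgroup.mul_mem _ (Subgroup.mul_mem _ (al_mem _) (be_mem hp)) (al_mem _)

lemma cb_root (t : ZMod 3) (p : ZMod 3 × ZMod 3) : (cb t p).l [] = 0 := by
  show t + 0 + -t = 0
  ring

lemma cb_sec (t : ZMod 3) (p : ZMod 3 × ZMod 3) (x : ZMod 3) :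
    (cb t p).sec x = (be p.1 p.2).sec (x - t) := by
  unfold cb
  rw [sec_mul, sec_mul, al_sec, al_sec, one_mul, mul_one, al_root, sub_eq_add_neg]

variable (hJ : ∀ p ∈ J, (p.1, -p.2) ∈ J) (h10 : ((1, 0) : ZMod 3 × ZMod 3) ∈ J)

include hJ in
lemma sec_mem {g : WW} (hg : g ∈ K J) (x : ZMod 3) : g.sec x ∈ K J := by
  induction hg using Subgroup.closure_induction generalizing x with
  | mem g hg =>
    rcases hg with rfl | ⟨p, hp, rfl⟩
    · rw [al_sec]; exact Subgroup.one_mem _
    · rcases three_cases x with rfl | rfl | rfl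
      · exact al_mem _
      · exact Subgroup.one_mem _
      · exact be_mem (hJ p hp)
  | one => exact Subgroup.one_mem _
  | mul g h _ _ hg hh =>
    rw [sec_mul]
    exact Subgroup.mul_mem _ (hg _) (hh _)
  | inv g _ hg =>
    rw [sec_inv]
    exact Subgroup.inv_mem _ (hg _)

include hJ h10 in
lemma lift {h : WW} (hh : h ∈ K J) (x : ZMod 3) : ∃ k ∈ K J, k.l [] = 0 ∧ k.sec x = h := by
  induction hh using Subgroup.closure_induction with
  | mem g hg =>
    rcases hg with rfl | ⟨p, hp, rfl⟩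
    · refine ⟨cb x (1, 0), cb_mem x h10, cb_root _ _, ?_⟩
      rw [cb_sec, sub_self, be_sec0, add_zero]
    · refine ⟨cb (x - 2) (p.1, -p.2), cb_mem _ (hJ p hp), cb_root _ _, ?_⟩
      rw [cb_sec, sub_sub_cancel, be_sec2, neg_neg]
  | one => exact ⟨1, Subgroup.one_mem _, rfl, rfl⟩
  | mul g h _ _ hg hh =>
    obtain ⟨k, hk, hk0, hk1⟩ := hg
    obtain ⟨k', hk', hk0', hk1'⟩ := hh
    refine ⟨k * k', Subgroup.mul_mem _ hk hk', ?_, ?_⟩
    · rw [mul_root, hk0, hk0', add_zero]
    · rw [sec_mul_of hk0', hk1, hk1']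
  | inv g _ hg =>
    obtain ⟨k, hk, hk0, hk1⟩ := hg
    refine ⟨k⁻¹, Subgroup.inv_mem _ hk, ?_, ?_⟩
    · rw [inv_root, hk0, neg_zero]
    · rw [sec_inv_of hk0, hk1]

end

/-- if the commutators of the generators lie in a subgroup normalized by the group, so does the
commutator subgroup -/
lemma comm_le {G : Type*} [Group G] (S : Set G) (N : Subgroup G)
    (hN : ∀ g ∈ Subgroup.closure S, ∀ n ∈ N, g * n * g⁻¹ ∈ N)
    (h : ∀ s ∈ S, ∀ t ∈ S, ⁅s, t⁆ ∈ N) : ⁅Subgroup.closure S, Subgroup.closure S⁆ ≤ N := by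
  have h1 : ∀ s ∈ S, ∀ g ∈ Subgroup.closure S, ⁅g, s⁆ ∈ N := by
    intro s hs g hg
    induction hg using Subgroup.closure_induction with
    | mem g hg => exact h g hg s hs
    | one => rw [commutatorElement_one_left]; exact N.one_mem
    | mul g k hg hk ihg ihk =>
      have : ⁅g * k, s⁆ = (g * ⁅k, s⁆ * g⁻¹) * ⁅g, s⁆ := by
        simp only [commutatorElement_def]; group
      rw [this]
      exact N.mul_mem (hN g hg _ ihk) ihg
    | inv g hg ih =>
      have : ⁅g⁻¹, s⁆ = g⁻¹ * (⁅g, s⁆)⁻¹ * g⁻¹⁻¹ := by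
        simp only [commutatorElement_def]; group
      rw [this]
      exact hN _ (Subgroup.inv_mem _ hg) _ (N.inv_mem ih)
  rw [Subgroup.commutator_le]
  intro g hg k hk
  induction hk using Subgroup.closure_induction with
  | mem k hk => exact h1 k hk g hg
  | one => rw [commutatorElement_one_right]; exact N.one_mem
  | mul k l hk hl ihk ihl =>
    have : ⁅g, k * l⁆ = ⁅g, k⁆ * (k * ⁅g, l⁆ * k⁻¹) := by
      simp only [commutatorElement_def]; group
    rw [this]
    exact N.mul_mem ihk (hN k hk _ ihl)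
  | inv k hk ih =>
    have : ⁅g, k⁻¹⁆ = k⁻¹ * (⁅g, k⁆)⁻¹ * k⁻¹⁻¹ := by
      simp only [commutatorElement_def]; group
    rw [this]
    exact hN _ (Subgroup.inv_mem _ hk) _ (N.inv_mem ih)

lemma comm_inv_mem {G : Type*} [Group G] {N : Subgroup G} {a b : G} (h : ⁅a, b⁆ ∈ N) :
    ⁅b, a⁆ ∈ N := by
  rw [← commutatorElement_inv]
  exact N.inv_mem h

section

variable {J : AddSubgroup (ZMod 3 × ZMod 3)}

variable (hJ : ∀ p ∈ J, (p.1, -p.2) ∈ J) (h10 : ((1, 0) : ZMod 3 × ZMod 3) ∈ J)

include hJ h10 in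
lemma at1_zero_mem {d : WW} (hd : d ∈ ⁅K J, K J⁆) : at1 0 d ∈ ⁅K J, K J⁆ := by
  have key : ⁅K J, K J⁆ ≤ (⁅K J, K J⁆).comap (at1 (0 : ZMod 3)) := by
    apply comm_le
    · intro g hg n hn
      obtain ⟨k, hk, hk0, hk1⟩ := lift hJ h10 hg 0
      rw [Subgroup.mem_comap] at hn ⊢
      have h1 := conj_at1 k n 0
      rw [hk0, hk1, add_zero] at h1
      rw [← h1]
      exact conj_mem_commutator hk hn
    · have h1 : ∀ p ∈ J, ⁅(al 1 : WW), be p.1 p.2⁆ ∈ (⁅K J, K J⁆).comap (at1 (0 : ZMod 3)) := by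
        intro p hp
        rw [Subgroup.mem_comap]
        have h2 : at1 0 ⁅(al 1 : WW), be p.1 p.2⁆ = ⁅be 1 0, cb 1 (p.1, -p.2)⁆ := by
          symm
          apply eq_at1
          · simp only [commutatorElement_def, mul_root, inv_root, cb_root, be_root]
            ring
          · simp only [commutatorElement_def]
            rw [sec_mul_of, sec_mul_of, sec_mul_of, sec_inv_of, sec_inv_of, cb_sec, be_sec0,
              show (0 : ZMod 3) - 1 = 2 from rfl, be_sec2, add_zero, neg_neg]
            all_goals simp [inv_root, cb_root, be_root]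
          · intro y hy
            simp only [commutatorElement_def]
            rw [sec_mul_of, sec_mul_of, sec_mul_of, sec_inv_of, sec_inv_of, cb_sec]
            rcases three_cases y with rfl | rfl | rfl
            · exact absurd rfl hy
            · rw [be_sec1]
              group
            · rw [show (2 : ZMod 3) - 1 = 1 from rfl, be_sec1]
              group
            all_goals simp [inv_root, cb_root, be_root]
        rw [h2]
        exact Subgroup.commutator_mem_commutator (be_mem h10) (cb_mem 1 (hJ p hp))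
      rintro s (rfl | ⟨p, hp, rfl⟩) t (rfl | ⟨q, hq, rfl⟩)
      · rw [commutatorElement_self]
        exact Subgroup.one_mem _
      · exact h1 q hq
      · exact comm_inv_mem (h1 p hp)
      · rw [commutatorElement_eq_one_iff_mul_comm.mpr (be_comm _ _ _ _)]
        exact Subgroup.one_mem _
  exact key hd

lemma at1_conj (x : ZMod 3) (d : WW) : at1 x d = al x * at1 0 d * (al x)⁻¹ := by
  rw [conj_at1, al_root, al_sec, zero_add]
  simp

include hJ h10 in
lemma at1_mem {d : WW} (hd : d ∈ ⁅K J, K J⁆) (x : ZMod 3) : at1 x d ∈ ⁅K J, K J⁆ := by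
  rw [at1_conj]
  exact conj_mem_commutator (al_mem x) (at1_zero_mem hJ h10 hd)

lemma fg : (K J).FG := by
  rw [Subgroup.fg_iff]
  refine ⟨_, rfl, ?_⟩
  refine (Set.finite_singleton _).union ?_
  refine (Set.finite_range (fun p : ZMod 3 × ZMod 3 => be p.1 p.2)).subset ?_
  rintro _ ⟨p, _, rfl⟩
  exact ⟨p, rfl⟩

lemma al_pow (s : ZMod 3) : (al s) ^ 3 = 1 := by
  rw [pow_succ, pow_two, al_mul, al_mul]
  have : s + s + s = 0 := by
    revert s
    decide
  rw [this, al_zero]

lemma be_pow (i j : ZMod 3) : (be i j) ^ 3 = 1 := by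
  rw [pow_succ, pow_two, be_mul, be_mul]
  have : ∀ s : ZMod 3, s + s + s = 0 := by decide
  rw [this, this, be_zero]

lemma ab : (⁅K J, K J⁆).relIndex (K J) ≠ 0 := by
  have h1 : Group.FG (K J) := (Group.fg_iff_subgroup_fg _).mpr fg
  have h2 : ∀ g (hg : g ∈ K J), IsOfFinOrder (Abelianization.of (⟨g, hg⟩ : K J)) := by
    intro g hg
    induction hg using Subgroup.closure_induction with
    | mem g hg =>
      rw [isOfFinOrder_iff_pow_eq_one]
      refine ⟨3, by norm_num, ?_⟩
      rw [← map_pow]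
      have : (⟨g, Subgroup.subset_closure hg⟩ : K J) ^ 3 = 1 := by
        apply Subtype.ext
        show g ^ 3 = 1
        rcases hg with rfl | ⟨p, _, rfl⟩
        · exact al_pow 1
        · exact be_pow _ _
      rw [this, map_one]
    | one => exact IsOfFinOrder.one
    | mul g h hg hh ihg ihh =>
      have : (⟨g * h, Subgroup.mul_mem _ hg hh⟩ : K J) = ⟨g, hg⟩ * ⟨h, hh⟩ := rfl
      rw [this, map_mul]
      exact ihg.mul ihh
    | inv g hg ih =>
      have : (⟨g⁻¹, Subgroup.inv_mem _ hg⟩ : K J) = (⟨g, hg⟩)⁻¹ := rfl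
      rw [this, map_inv]
      exact ih.inv
  have h3 : Finite (Abelianization (K J)) := by
    have : Group.FG (Abelianization (K J)) := QuotientGroup.fg _
    apply CommGroup.finite_of_fg_isMulTorsion
    intro x
    obtain ⟨⟨g, hg⟩, rfl⟩ := QuotientGroup.mk_surjective x
    exact h2 g hg
  have h4 : (⁅K J, K J⁆).subgroupOf (K J) = commutator (K J) := by
    rw [← Subgroup.map_subtype_commutator]
    exact Subgroup.comap_map_eq_self_of_injective (Subgroup.subtype_injective _) _
  show ((⁅K J, K J⁆).subgroupOf (K J)).index ≠ 0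
  rw [h4]
  have h6 : Finite (K J ⧸ commutator (K J)) := h3
  have h5 : (commutator (K J)).FiniteIndex := Subgroup.finiteIndex_of_finite_quotient
  exact h5.index_ne_zero

include hJ h10 in
lemma nice : Nice (K J) where
  al_mem := al_mem
  sec_mem := fun _ hg x => sec_mem hJ hg x
  lift := fun _ hh x => lift hJ h10 hh x
  at1_mem := fun _ hd x => at1_mem hJ h10 hd x
  ab := ab

end

end Pool.Agent.R632.FG
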