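import Pool.Agent.R632.FG

/-! Every maximal subgroup of `G` containing the Fabrykowski-Gupta group `H` has finite index, and
`H` has infinite index in `G`. -/

set_option linter.unusedSectionVars false

namespace Pool.Agent.R632.FG

open Port Port.W
open scoped commutatorElement

/-- exponents of the elements of `H` -/
def JH : AddSubgroup (ZMod 3 × ZMod 3) where
  carrier := {p | p.2 = 0}
  add_mem' := by
    intro p q hp hq
    show p.2 + q.2 = 0
    rw [hp, hq, add_zero]
  zero_mem' := rfl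
  neg_mem' := by
    intro p hp
    show -p.2 = 0
    rw [hp, neg_zero]

/-- the Fabrykowski-Gupta group -/
def H : Subgroup WW := K JH

/-- the larger group -/
def G : Subgroup WW := K ⊤

lemma H_nice : Nice H := nice (fun p hp => by show -p.2 = 0; rw [show p.2 = 0 from hp, neg_zero]) rfl

lemma G_nice : Nice G := nice (fun _ _ => trivial) trivial

lemma H_le_G : H ≤ G := by
  apply Subgroup.closure_mono
  rintro g (rfl | ⟨p, _, rfl⟩)
  · exact Or.inl rfl
  · exact Or.inr ⟨p, trivial, rfl⟩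

lemma be_mem_G (i j : ZMod 3) : be i j ∈ G := be_mem (p := (i, j)) trivial

lemma be_mem_H (i : ZMod 3) : be i 0 ∈ H := be_mem (J := JH) (p := (i, 0)) rfl

/-! ### the character -/

/-- the character -/
def chi (g : WW) : ZMod 3 := lev 2 g - lev 1 g

lemma chi_mul (g h : WW) : chi (g * h) = chi g + chi h := by
  unfold chi
  rw [lev_mul, lev_mul]
  ring

lemma chi_one : chi 1 = 0 := by
  unfold chi
  rw [lev_one, lev_one, sub_zero]

lemma chi_inv (g : WW) : chi g⁻¹ = - chi g := by
  unfold chi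
  rw [lev_inv, lev_inv]
  ring

lemma sum3 (f : ZMod 3 → ZMod 3) : ∑ x, f x = f 0 + f 1 + f 2 := by
  exact Fin.sum_univ_three f

lemma lev1_al (s : ZMod 3) : lev 1 (al s) = 0 := by
  rw [lev_succ, sum3]
  simp [al_sec, lev_one]

lemma lev2_al (s : ZMod 3) : lev 2 (al s) = 0 := by
  rw [lev_succ, sum3]
  simp [al_sec, lev_one]

lemma lev3_al (s : ZMod 3) : lev 3 (al s) = 0 := by
  rw [lev_succ, sum3]
  simp [al_sec, lev_one]

lemma lev1_be (i j : ZMod 3) : lev 1 (be i j) = i + j := by
  rw [lev_succ, sum3, be_sec0, be_sec1, be_sec2, lev_zero, lev_zero, lev_zero, al_root, be_root]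
  simp [one_l]

lemma lev2_be (i j : ZMod 3) : lev 2 (be i j) = i - j := by
  rw [lev_succ, sum3, be_sec0, be_sec1, be_sec2, lev1_al, lev_one, lev1_be]
  ring

lemma lev3_be (i j : ZMod 3) : lev 3 (be i j) = i + j := by
  rw [lev_succ, sum3, be_sec0, be_sec1, be_sec2, lev2_al, lev_one, lev2_be]
  ring

lemma chi_al (s : ZMod 3) : chi (al s) = 0 := by
  unfold chi
  rw [lev1_al, lev2_al, sub_zero]

lemma chi_be (i j : ZMod 3) : chi (be i j) = j := by
  unfold chi
  rw [lev1_be, lev2_be]
  have : ∀ i j : ZMod 3, i - j - (i + j) = j := by decide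
  exact this i j

lemma chi_cb (t : ZMod 3) (p : ZMod 3 × ZMod 3) : chi (cb t p) = p.2 := by
  unfold cb
  rw [chi_mul, chi_mul, chi_al, chi_al, chi_be]
  ring

lemma chi_H {g : WW} (hg : g ∈ H) : chi g = 0 := by
  induction hg using Subgroup.closure_induction with
  | mem g hg =>
    rcases hg with rfl | ⟨p, hp, rfl⟩
    · exact chi_al 1
    · rw [chi_be]; exact hp
  | one => exact chi_one
  | mul g h _ _ hg hh => rw [chi_mul, hg, hh, add_zero]
  | inv g _ hg => rw [chi_inv, hg, neg_zero]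

lemma lev_G {g : WW} (hg : g ∈ G) : lev 3 g = lev 1 g := by
  induction hg using Subgroup.closure_induction with
  | mem g hg =>
    rcases hg with rfl | ⟨p, hp, rfl⟩
    · rw [lev3_al, lev1_al]
    · rw [lev3_be, lev1_be]
  | one => rw [lev_one, lev_one]
  | mul g h _ _ hg hh => rw [lev_mul, lev_mul, hg, hh]
  | inv g _ hg => rw [lev_inv, lev_inv, hg]

lemma sum_chi {g : WW} (hg : g ∈ G) : ∑ x, chi (g.sec x) = - chi g := by
  unfold chi
  rw [Finset.sum_sub_distrib]
  have h1 : ∑ x, lev 2 (g.sec x) = lev 3 g := rfl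
  have h2 : ∑ x, lev 1 (g.sec x) = lev 2 g := rfl
  rw [h1, h2, lev_G hg]
  ring

/-! ### infinite index -/

/-- an element of `G'` outside `H` -/
def d0 : WW := ⁅(al 1 : WW), be 0 1⁆

lemma d0_mem : d0 ∈ ⁅G, G⁆ :=
  Subgroup.commutator_mem_commutator (al_mem 1) (be_mem_G 0 1)

lemma d0_not_mem : d0 ∉ H := by
  intro h
  have h1 := H_nice.sec_mem _ h 2
  have h2 : d0.sec 2 = be 0 1 := by
    have h3 : d0 = cb 1 (0, 1) * be 0 (-1) := by
      unfold d0 cb
      rw [commutatorElement_def, al_inv, be_inv, neg_zero]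
    rw [h3, sec_mul_of (be_root _ _), cb_sec, be_sec2, show (2 : ZMod 3) - 1 = 1 from rfl, be_sec1,
      one_mul, neg_neg]
  rw [h2] at h1
  have h3 := chi_H h1
  rw [chi_be] at h3
  exact absurd h3 (by decide)

/-- pairwise incomparable vertices -/
def vv (n : ℕ) : List (ZMod 3) := List.replicate n 2 ++ [0]

lemma vv_not {m n : ℕ} (h : m < n) : ¬ vv m <+: vv n ∧ ¬ vv n <+: vv m := by
  induction m generalizing n with
  | zero =>
    obtain ⟨n, rfl⟩ : ∃ k, n = k + 1 := ⟨n - 1, by omega⟩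
    unfold vv
    rw [List.replicate_succ]
    constructor
    · intro h
      rw [List.replicate_zero, List.nil_append, List.cons_append, List.cons_prefix_cons] at h
      exact absurd h.1 (by decide)
    · intro h
      rw [List.replicate_zero, List.nil_append, List.cons_append, List.cons_prefix_cons] at h
      exact absurd h.1 (by decide)
  | succ m ih =>
    obtain ⟨n, rfl⟩ : ∃ k, n = k + 1 := ⟨n - 1, by omega⟩
    obtain ⟨h1, h2⟩ := ih (n := n) (by omega)
    have h3 : ∀ k, vv (k + 1) = 2 :: vv k := fun k => by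
      unfold vv
      rw [List.replicate_succ, List.cons_append]
    rw [h3, h3]
    constructor
    · intro h
      rw [List.cons_prefix_cons] at h
      exact h1 h.2
    · intro h
      rw [List.cons_prefix_cons] at h
      exact h2 h.2

lemma infinite_index : H.relIndex G = 0 := by
  by_contra hne
  have hfin : (H.subgroupOf G).FiniteIndex := ⟨hne⟩
  let g : ℕ → G := fun n => ⟨put (vv n) d0, commutator_le_self _ (G_nice.put_mem d0_mem _)⟩
  obtain ⟨m, n, hmn, heq⟩ := Finite.exists_ne_map_eq_of_infinite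
    (fun n => (QuotientGroup.mk (g n) : G ⧸ H.subgroupOf G))
  wlog hlt : m < n generalizing m n
  · exact this n m hmn.symm heq.symm (by omega)
  have h1 : (g m)⁻¹ * g n ∈ H.subgroupOf G := QuotientGroup.eq.mp heq
  rw [Subgroup.mem_subgroupOf] at h1
  have h2 : (put (vv m) d0)⁻¹ * put (vv n) d0 ∈ H := h1
  have h3 := H_nice.secv_mem h2 (vv m)
  obtain ⟨h4, h5⟩ := vv_not hlt
  rw [secv_mul, put_act_of_not _ h5, put_secv_of_not _ h5 h4, mul_one, ← map_inv,
    put_secv_self] at h3
  exact d0_not_mem (by simpa using H.inv_mem h3)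

/-! ### length -/

/-- product of conjugates -/
def prodC (L : List (ZMod 3 × ZMod 3 × ZMod 3)) : WW := (L.map (fun q => cb q.1 q.2)).prod

lemma prodC_nil : prodC [] = 1 := rfl

lemma prodC_cons (q : ZMod 3 × ZMod 3 × ZMod 3) (L : List (ZMod 3 × ZMod 3 × ZMod 3)) :
    prodC (q :: L) = cb q.1 q.2 * prodC L := by
  unfold prodC
  rw [List.map_cons, List.prod_cons]

lemma prodC_append (L L' : List (ZMod 3 × ZMod 3 × ZMod 3)) :
    prodC (L ++ L') = prodC L * prodC L' := by
  unfold prodC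
  rw [List.map_append, List.prod_append]

lemma prodC_root (L : List (ZMod 3 × ZMod 3 × ZMod 3)) : (prodC L).l [] = 0 := by
  induction L with
  | nil => rfl
  | cons q L ih => rw [prodC_cons, mul_root, cb_root, ih, add_zero]

lemma cb_zero (p : ZMod 3 × ZMod 3) : cb 0 p = be p.1 p.2 := by
  unfold cb
  rw [neg_zero, al_zero, one_mul, mul_one]

lemma al_cb (s t : ZMod 3) (p : ZMod 3 × ZMod 3) : al s * cb t p = cb (s + t) p * al s := by
  unfold cb
  rw [← al_mul s t, show -(s + t) = -t + -s by ring, ← al_mul (-t) (-s)]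
  simp only [mul_assoc]
  rw [al_mul (-s) s, neg_add_cancel, al_zero, mul_one]

lemma al_prodC (s : ZMod 3) (L : List (ZMod 3 × ZMod 3 × ZMod 3)) :
    ∃ L', L'.length = L.length ∧ al s * prodC L = prodC L' * al s := by
  induction L with
  | nil => exact ⟨[], rfl, by rw [prodC_nil, one_mul, mul_one]⟩
  | cons q L ih =>
    obtain ⟨L', h1, h2⟩ := ih
    refine ⟨(s + q.1, q.2) :: L', by simp [h1], ?_⟩
    rw [prodC_cons, prodC_cons, ← mul_assoc, al_cb, mul_assoc, h2, mul_assoc]

/-- every element of `G` is a product of conjugates times a rooted element -/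
lemma exists_form {g : WW} (hg : g ∈ G) : ∃ L s, g = prodC L * al s := by
  have key1 : ∀ (g : WW) (r : ZMod 3), (∃ L s, g = prodC L * al s) →
      ∃ L s, g * al r = prodC L * al s := by
    rintro g r ⟨L, s, rfl⟩
    exact ⟨L, s + r, by rw [mul_assoc, al_mul]⟩
  have key2 : ∀ (g : WW) (i j : ZMod 3), (∃ L s, g = prodC L * al s) →
      ∃ L s, g * be i j = prodC L * al s := by
    rintro g i j ⟨L, s, rfl⟩
    refine ⟨L ++ [(s, (i, j))], s, ?_⟩
    rw [prodC_append, prodC_cons, prodC_nil, mul_one, mul_assoc, mul_assoc]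
    congr 1
    have := al_cb s 0 (i, j)
    rw [cb_zero, add_zero] at this
    exact this
  unfold G at hg
  unfold K at hg
  induction hg using Subgroup.closure_induction_right with
  | one => exact ⟨[], 0, by rw [prodC_nil, al_zero, mul_one]⟩
  | mul_right g _ y hy ih =>
    rcases hy with rfl | ⟨p, _, rfl⟩
    · exact key1 _ _ ih
    · exact key2 _ _ _ ih
  | mul_inv_cancel g _ y hy ih =>
    rcases hy with rfl | ⟨p, _, rfl⟩
    · rw [al_inv]
      exact key1 _ _ ih
    · rw [be_inv]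
      exact key2 _ _ _ ih

lemma sec_prodC (L : List (ZMod 3 × ZMod 3 × ZMod 3)) (x : ZMod 3) :
    ∃ L' s, L'.length = L.countP (fun q => q.1 = x + 1) ∧ (prodC L).sec x = prodC L' * al s := by
  induction L with
  | nil => exact ⟨[], 0, rfl, by rw [prodC_nil, al_zero, mul_one, sec_one]⟩
  | cons q L ih =>
    obtain ⟨L', s, h1, h2⟩ := ih
    rw [prodC_cons, sec_mul_of (prodC_root L), cb_sec, h2]
    have h3 : q.1 = x + 1 ↔ x - q.1 = 2 := by
      have : ∀ x t : ZMod 3, t = x + 1 ↔ x - t = 2 := by decide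
      exact this _ _
    by_cases h4 : q.1 = x + 1
    · refine ⟨(0, (q.2.1, - q.2.2)) :: L', s, ?_, ?_⟩
      · rw [List.countP_cons_of_pos (by simpa using h4), List.length_cons, h1]
      · rw [h3.mp h4, be_sec2, prodC_cons, cb_zero, mul_assoc]
    · have h5 : ∃ r, (be q.2.1 q.2.2).sec (x - q.1) = al r := by
        rcases three_cases (x - q.1) with h | h | h
        · exact ⟨_, by rw [h, be_sec0]⟩
        · exact ⟨0, by rw [h, be_sec1, al_zero]⟩
        · exact absurd (h3.mpr h) h4
      obtain ⟨r, hr⟩ := h5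
      obtain ⟨L'', h6, h7⟩ := al_prodC r L'
      refine ⟨L'', r + s, ?_, ?_⟩
      · rw [List.countP_cons_of_neg (by simpa using h4), h6, h1]
      · rw [hr, ← mul_assoc, h7, mul_assoc, al_mul]

lemma prodC_same (t : ZMod 3) (L : List (ZMod 3 × ZMod 3 × ZMod 3)) (h : ∀ q ∈ L, q.1 = t) :
    ∃ p, prodC L = cb t p := by
  induction L with
  | nil => exact ⟨0, by rw [prodC_nil, cb]; simp [be_zero, al_mul, al_zero]⟩
  | cons q L ih =>
    obtain ⟨p, hp⟩ := ih (fun q hq => h q (List.mem_cons_of_mem _ hq))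
    refine ⟨q.2 + p, ?_⟩
    rw [prodC_cons, hp, h q List.mem_cons_self]
    unfold cb
    rw [Prod.fst_add, Prod.snd_add, ← be_mul]
    have : al (-t) * al t = (1 : WW) := by rw [al_mul, neg_add_cancel, al_zero]
    calc al t * be q.2.1 q.2.2 * al (-t) * (al t * be p.1 p.2 * al (-t))
        = al t * be q.2.1 q.2.2 * (al (-t) * al t) * be p.1 p.2 * al (-t) := by group
      _ = _ := by rw [this]; group

/-! ### sections of subgroups -/

/-- first level sections of a subgroup -/
def sub1 (M : Subgroup WW) (x : ZMod 3) : Subgroup WW where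
  carrier := {g | ∃ m ∈ M, m.l [] = 0 ∧ m.sec x = g}
  mul_mem' := by
    rintro _ _ ⟨m, hm, h1, rfl⟩ ⟨m', hm', h1', rfl⟩
    exact ⟨m * m', M.mul_mem hm hm', by rw [mul_root, h1, h1', add_zero], sec_mul_of h1' x⟩
  one_mem' := ⟨1, M.one_mem, rfl, rfl⟩
  inv_mem' := by
    rintro _ ⟨m, hm, h1, rfl⟩
    exact ⟨m⁻¹, M.inv_mem hm, by rw [inv_root, h1, neg_zero], sec_inv_of h1 x⟩

lemma H_le_sub1 {M : Subgroup WW} (hM : H ≤ M) (x : ZMod 3) : H ≤ sub1 M x := by
  intro h hh
  obtain ⟨k, hk, h0, h1⟩ := H_nice.lift h hh x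
  exact ⟨k, hM hk, h0, h1⟩

lemma sub1_le_G {M : Subgroup WW} (hM : M ≤ G) (x : ZMod 3) : sub1 M x ≤ G := by
  rintro _ ⟨m, hm, _, rfl⟩
  exact G_nice.sec_mem m (hM hm) x

/-- all of `G` occurs as sections of `M` at the vertex `v` -/
def Full (M : Subgroup WW) (v : List (ZMod 3)) : Prop :=
  ∀ g ∈ G, ∃ m ∈ M, m.act v = v ∧ m.secv v = g

lemma zmod3_cases : ∀ j : ZMod 3, j ≠ 0 → ∀ k : ZMod 3, k = 0 ∨ k = j ∨ k = j + j := by
  decide

lemma full_nil {M : Subgroup WW} {i j : ZMod 3} (hH : H ≤ M) (hj : j ≠ 0) (h : be i j ∈ M) :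
    Full M [] := by
  have h1 : be 0 j ∈ M := by
    have : be 0 j = be (-i) 0 * be i j := by
      rw [be_mul]
      congr 1 <;> ring
    rw [this]
    exact M.mul_mem (hH (be_mem_H _)) h
  have h2 : ∀ k, be 0 k ∈ M := by
    intro k
    have h3 : k = 0 ∨ k = j ∨ k = j + j := zmod3_cases j hj k
    rcases h3 with rfl | rfl | rfl
    · rw [be_zero]; exact M.one_mem
    · exact h1
    · have : be 0 (j + j) = be 0 j * be 0 j := by rw [be_mul, add_zero]
      rw [this]
      exact M.mul_mem h1 h1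
  have h3 : G ≤ M := by
    unfold G K
    rw [Subgroup.closure_le]
    rintro _ (rfl | ⟨p, _, rfl⟩)
    · exact hH (al_mem 1)
    · have : be p.1 p.2 = be p.1 0 * be 0 p.2 := by rw [be_mul, add_zero, zero_add]
      rw [this]
      exact M.mul_mem (hH (be_mem_H _)) (h2 _)
  intro g hg
  exact ⟨g, h3 hg, rfl, rfl⟩

lemma full_cons {M : Subgroup WW} {x : ZMod 3} {v : List (ZMod 3)} (h : Full (sub1 M x) v) :
    Full M (x :: v) := by
  intro g hg
  obtain ⟨_, ⟨m, hm, h0, rfl⟩, h1, h2⟩ := h g hg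
  refine ⟨m, hm, ?_, h2⟩
  rw [act, h0, h1, add_zero]

theorem claimA (k : ℕ) : ∀ (M : Subgroup WW), H ≤ M → M ≤ G →
    ∀ (L : List (ZMod 3 × ZMod 3 × ZMod 3)) (s : ZMod 3), L.length = k → prodC L * al s ∈ M →
      chi (prodC L * al s) ≠ 0 → ∃ v, Full M v := by
  induction k using Nat.strong_induction_on with
  | _ k ih =>
    intro M hHM hMG L s hk hm hchi
    have hm' : prodC L ∈ M := by
      have := M.mul_mem hm (hHM (al_mem (-s) : al (-s) ∈ H))
      rwa [mul_assoc, al_mul, add_neg_cancel, al_zero, mul_one] at this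
    have hchi' : chi (prodC L) ≠ 0 := by
      rwa [chi_mul, chi_al, add_zero] at hchi
    have h1 : ∃ x, chi ((prodC L).sec x) ≠ 0 := by
      by_contra hcon
      push Not at hcon
      have h2 := sum_chi (hMG hm')
      rw [Finset.sum_eq_zero (fun x _ => hcon x)] at h2
      exact hchi' (neg_eq_zero.mp h2.symm)
    obtain ⟨x, hx⟩ := h1
    obtain ⟨L', s', h2, h3⟩ := sec_prodC L x
    by_cases h4 : L.countP (fun q => q.1 = x + 1) < k
    · obtain ⟨v, hv⟩ := ih _ h4 (sub1 M x) (H_le_sub1 hHM x) (sub1_le_G hMG x) L' s' h2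
        ⟨prodC L, hm', prodC_root L, h3⟩ (by rw [← h3]; exact hx)
      exact ⟨x :: v, full_cons hv⟩
    · have h5 : L.countP (fun q => q.1 = x + 1) = L.length :=
        le_antisymm List.countP_le_length (by omega)
      rw [List.countP_eq_length] at h5
      obtain ⟨p, hp⟩ := prodC_same (x + 1) L (fun q hq => by simpa using h5 q hq)
      have h6 : be p.1 p.2 ∈ M := by
        have h7 : be p.1 p.2 = al (-(x + 1)) * cb (x + 1) p * al (x + 1) := by
          unfold cb
          simp only [← mul_assoc]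
          rw [al_mul, neg_add_cancel, al_zero, one_mul, mul_assoc, al_mul, neg_add_cancel, al_zero,
            mul_one]
        rw [h7, ← hp]
        exact M.mul_mem (M.mul_mem (hHM (al_mem _)) hm') (hHM (al_mem _))
      refine ⟨[], full_nil hHM ?_ h6⟩
      rw [hp, chi_cb] at hchi'
      exact hchi'

/-- If all of `G` occurs as sections of `M` at some vertex, then `M` has finite index in `G`. -/
theorem claimB {M : Subgroup WW} (hHM : H ≤ M) {v : List (ZMod 3)} (hv : Full M v) :
    M.relIndex G ≠ 0 := by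
  -- the elements whose copies at `v` lie in `M`
  let R : Subgroup WW := M.comap (put v)
  have hR : ∀ g ∈ G, ∀ r ∈ R, g * r * g⁻¹ ∈ R := by
    intro g hg r hr
    obtain ⟨m, hm, h1, h2⟩ := hv g hg
    have h3 := conj_put m r v
    rw [h1, h2] at h3
    show put v (g * r * g⁻¹) ∈ M
    rw [← h3]
    exact M.mul_mem (M.mul_mem hm hr) (M.inv_mem hm)
  have hd1 : ⁅(al 1 : WW), be 1 0⁆ ∈ R :=
    hHM (commutator_le_self _ (H_nice.put_mem
      (Subgroup.commutator_mem_commutator (H_nice.al_mem 1) (be_mem_H 1)) v))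
  let L0 : Subgroup WW := R.comap (at1 0)
  have hL0 : ∀ g ∈ G, ∀ r ∈ L0, g * r * g⁻¹ ∈ L0 := by
    intro g hg r hr
    obtain ⟨k, hk, hk0, hk1⟩ := G_nice.lift g hg 0
    have h1 := conj_at1 k r 0
    rw [hk0, hk1, add_zero] at h1
    show at1 0 (g * r * g⁻¹) ∈ R
    rw [← h1]
    exact hR k hk _ hr
  have h4 : ∀ i j : ZMod 3, ⁅(al (-1) : WW), be i j⁆ ∈ L0 := by
    intro i j
    have h5 : at1 0 ⁅be 1 0 * al (-1), be i j⁆ = ⁅⁅(al 1 : WW), be 1 0⁆, cb 1 (i, -j)⁆ := by
      have h6 : ⁅(al 1 : WW), be 1 0⁆ = cb 1 (1, 0) * be (-1) 0 := by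
        unfold cb
        rw [commutatorElement_def, al_inv, be_inv, neg_zero]
      rw [h6]
      symm
      apply eq_at1
      · simp only [commutatorElement_def, mul_root, inv_root, cb_root, be_root]
        ring
      · simp only [commutatorElement_def]
        rw [sec_mul_of, sec_mul_of, sec_mul_of, sec_inv_of, sec_inv_of, sec_mul_of, cb_sec, cb_sec,
          be_sec0, show (0 : ZMod 3) - 1 = 2 from rfl, be_sec2, be_sec2, add_zero, neg_neg,
          neg_zero]
        all_goals simp [inv_root, cb_root, be_root, mul_root]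
      · intro y hy
        simp only [commutatorElement_def]
        rw [sec_mul_of, sec_mul_of, sec_mul_of, sec_inv_of, sec_inv_of, sec_mul_of, cb_sec, cb_sec]
        rcases three_cases y with rfl | rfl | rfl
        · exact absurd rfl hy
        · rw [be_sec1, show (1 : ZMod 3) - 1 = 0 from rfl, be_sec0, be_sec0, mul_one, al_mul,
            al_inv, al_inv, al_mul, al_mul]
          have : ∀ a b : ZMod 3, a + b + -a + -b = 0 := by decide
          rw [this, al_zero]
        · rw [show (2 : ZMod 3) - 1 = 1 from rfl, be_sec1, be_sec1]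
          group
        all_goals simp [inv_root, cb_root, be_root, mul_root]
    have h7 : at1 0 ⁅be 1 0 * al (-1), be i j⁆ ∈ R := by
      rw [h5]
      have h8 : cb 1 (i, -j) ∈ G := cb_mem 1 trivial
      have h9 : ⁅⁅(al 1 : WW), be 1 0⁆, cb 1 (i, -j)⁆ =
          ⁅(al 1 : WW), be 1 0⁆ * (cb 1 (i, -j) * (⁅(al 1 : WW), be 1 0⁆)⁻¹ * (cb 1 (i, -j))⁻¹) := by
        rw [commutatorElement_def]
        group
      rw [h9]
      exact R.mul_mem hd1 (hR _ h8 _ (R.inv_mem hd1))
    have h10 : ⁅be 1 0 * al (-1), be i j⁆ ∈ L0 := h7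
    have h11 : ⁅(al (-1) : WW), be i j⁆ = be (-1) 0 * ⁅be 1 0 * al (-1), be i j⁆ * (be (-1) 0)⁻¹ := by
      have h12 : be (-1) 0 * be 1 0 = 1 := by rw [be_mul]; exact be_zero
      have h13 : (be i j)⁻¹ * (be (-1) 0)⁻¹ = (be (-1) 0)⁻¹ * (be i j)⁻¹ := by
        rw [← mul_inv_rev, ← mul_inv_rev, be_comm]
      have h14 : (be 1 0)⁻¹ = be (-1) 0 := by rw [be_inv, neg_zero]
      calc ⁅(al (-1) : WW), be i j⁆ = al (-1) * be i j * (al (-1))⁻¹ * (be i j)⁻¹ := rfl
        _ = (be (-1) 0 * be 1 0) * al (-1) * be i j * (al (-1))⁻¹ * (be i j)⁻¹ := by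
          rw [h12, one_mul]
        _ = be (-1) 0 * (be 1 0 * al (-1)) * be i j * (al (-1))⁻¹ *
              ((be 1 0)⁻¹ * (be (-1) 0)⁻¹) * (be i j)⁻¹ := by
          rw [h14, mul_inv_cancel, mul_one]
          group
        _ = be (-1) 0 * (be 1 0 * al (-1)) * be i j * (al (-1))⁻¹ *
              (be 1 0)⁻¹ * ((be (-1) 0)⁻¹ * (be i j)⁻¹) := by group
        _ = be (-1) 0 * (be 1 0 * al (-1)) * be i j * (al (-1))⁻¹ *
              (be 1 0)⁻¹ * ((be i j)⁻¹ * (be (-1) 0)⁻¹) := by rw [h13]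
        _ = _ := by rw [commutatorElement_def]; group
    rw [h11]
    exact hL0 _ (be_mem_G _ _) _ h10
  have h5 : ∀ i j : ZMod 3, ⁅(al 1 : WW), be i j⁆ ∈ L0 := by
    intro i j
    have h6 : ⁅(al 1 : WW), be i j⁆ = al 1 * (⁅(al (-1) : WW), be i j⁆)⁻¹ * (al 1)⁻¹ := by
      rw [← al_inv]
      simp only [commutatorElement_def]
      group
    rw [h6]
    exact hL0 _ (al_mem 1) _ (L0.inv_mem (h4 i j))
  have h6 : ⁅G, G⁆ ≤ L0 := by
    apply comm_le
    · exact hL0
    · rintro s (rfl | ⟨p, hp, rfl⟩) t (rfl | ⟨q, hq, rfl⟩)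
      · rw [commutatorElement_self]
        exact Subgroup.one_mem _
      · exact h5 _ _
      · exact comm_inv_mem (h5 _ _)
      · rw [commutatorElement_eq_one_iff_mul_comm.mpr (be_comm _ _ _ _)]
        exact Subgroup.one_mem _
  -- copies of the commutator subgroup at all vertices of level `|v| + 1`
  have h7 : ∀ d ∈ ⁅G, G⁆, put (v ++ [0]) d ∈ M := by
    intro d hd
    rw [put_append]
    exact h6 hd
  have h8 : Pow ⁅G, G⁆ (v.length + 1) ≤ M := by
    apply Pow_le_of
    intro u hu d hd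
    obtain ⟨m, hm, hmu⟩ := H_nice.transitive (v ++ [0]) u (by simp [hu])
    have hm2 : m.secv (v ++ [0]) ∈ G := G_nice.secv_mem (H_le_G hm) _
    have h9 := conj_put m ((m.secv (v ++ [0]))⁻¹ * d * m.secv (v ++ [0])) (v ++ [0])
    have h10 : m.secv (v ++ [0]) * ((m.secv (v ++ [0]))⁻¹ * d * m.secv (v ++ [0])) *
        (m.secv (v ++ [0]))⁻¹ = d := by group
    rw [hmu, h10] at h9
    rw [← h9]
    refine M.mul_mem (M.mul_mem (hHM hm) (h7 _ ?_)) (M.inv_mem (hHM hm))
    have := conj_mem_commutator (G.inv_mem hm2) hd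
    simpa using this
  intro h9
  exact G_nice.index_pow _ (Subgroup.relIndex_eq_zero_of_le_left h8 h9)

/-- the kernel of the character -/
def kerChi : Subgroup WW where
  carrier := {g | chi g = 0}
  mul_mem' := by
    intro g h hg hh
    show chi (g * h) = 0
    rw [chi_mul, hg, hh, add_zero]
  one_mem' := chi_one
  inv_mem' := by
    intro g hg
    show chi g⁻¹ = 0
    rw [chi_inv, hg, neg_zero]

lemma kerChi_index : (G ⊓ kerChi).relIndex G ≠ 0 := by
  rw [Subgroup.inf_relIndex_left]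
  let f : WW →* Multiplicative (ZMod 3) :=
    { toFun := fun g => Multiplicative.ofAdd (chi g)
      map_one' := by rw [chi_one]; rfl
      map_mul' := fun g h => by rw [chi_mul]; rfl }
  have h1 : kerChi = f.ker := by
    ext g
    rfl
  have h0 : Finite (Multiplicative (ZMod 3)) := inferInstanceAs (Finite (ZMod 3))
  have h2 : f.ker.FiniteIndex := inferInstance
  have h3 := Subgroup.relIndex_dvd_index_of_normal f.ker G
  rw [h1]
  intro h4
  rw [h4] at h3
  exact h2.index_ne_zero (Nat.eq_zero_of_zero_dvd h3)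

/-- every maximal subgroup of `G` containing `H` has finite index -/
theorem maximal_index {M : Subgroup WW} (hHM : H ≤ M) (hMG : M < G)
    (hmax : ∀ N : Subgroup WW, M < N → N ≤ G → N = G) : M.relIndex G ≠ 0 := by
  by_cases h : ∃ m ∈ M, chi m ≠ 0
  · obtain ⟨m, hm, hchi⟩ := h
    obtain ⟨L, s, rfl⟩ := exists_form (hMG.le hm)
    obtain ⟨v, hv⟩ := claimA L.length M hHM hMG.le L s rfl hm hchi
    exact claimB hHM hv
  · push Not at h
    have h1 : M ≤ G ⊓ kerChi := fun m hm => ⟨hMG.le hm, h m hm⟩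
    rcases eq_or_lt_of_le h1 with h2 | h2
    · rw [h2]
      exact kerChi_index
    · have h3 := hmax _ h2 inf_le_left
      have h4 : be 0 1 ∈ G ⊓ kerChi := by
        rw [h3]
        exact be_mem_G 0 1
      have h5 : chi (be 0 1) = 0 := h4.2
      rw [chi_be] at h5
      exact absurd h5 (by decide)

end Pool.Agent.R632.FG
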