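import Mathlib

/-! An action of `ℤ × ℤ/p × (ℤ/p)^k` on the tree of words over an alphabet `X ≃ ℤ/p × Y`, and the
condition for an element to fix a word of given length. -/

set_option linter.unusedSectionVars false

namespace Pool.Agent.R632.FPPAct

variable {X Y : Type} {p : ℕ} [hp : Fact p.Prime] (e : X ≃ ZMod p × Y)

/-- the digit of a letter -/
def dig (a : X) : ZMod p := (e a).1

/-- rotation of a letter -/
def rot (c : ZMod p) (a : X) : X := e.symm ((e a).1 + c, (e a).2)

lemma dig_rot (c : ZMod p) (a : X) : dig e (rot e c a) = dig e a + c := by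
  unfold dig rot
  rw [e.apply_symm_apply]

lemma rot_add (c c' : ZMod p) (a : X) : rot e (c + c') a = rot e c (rot e c' a) := by
  unfold rot
  rw [e.apply_symm_apply, add_comm c c', add_assoc]

lemma rot_zero (a : X) : rot e 0 a = a := by
  unfold rot
  rw [add_zero]
  exact e.symm_apply_apply a

lemma rot_eq_iff {c : ZMod p} {a : X} : rot e c a = a ↔ c = 0 := by
  constructor
  · intro h
    have h1 := dig_rot e c a
    rw [h] at h1
    exact left_eq_add.mp h1
  · rintro rfl
    exact rot_zero e a

/-- the carry when `x` is added to the digit of `b` -/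
def carry (x : ℤ) (b : X) : ℤ := (x + ((dig e b).val : ℤ)) / p

lemma carry_add (x x' : ℤ) (b : X) :
    carry e (x + x') b = carry e x (rot e x' b) + carry e x' b := by
  unfold carry
  rw [dig_rot]
  have hp0 : (p : ℤ) ≠ 0 := by exact_mod_cast hp.out.ne_zero
  set D : ℤ := ((dig e b).val : ℤ) with hD
  have h1 : (((dig e b + (x' : ZMod p)).val : ℕ) : ℤ) = (x' + D) % p := by
    rw [← ZMod.val_intCast]
    congr 2
    rw [hD]
    push_cast
    rw [ZMod.natCast_zmod_val, add_comm]
  rw [h1, ← Int.add_mul_ediv_right _ _ hp0]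
  congr 1
  have h2 := Int.emod_add_mul_ediv (x' + D) p
  linarith

lemma carry_zero (b : X) : carry e 0 b = 0 := by
  unfold carry
  rw [zero_add]
  exact Int.ediv_eq_zero_of_lt (by positivity) (by exact_mod_cast ZMod.val_lt _)

lemma carry_of_dvd {x : ℤ} (h : (p : ℤ) ∣ x) (b : X) : carry e x b = x / p := by
  unfold carry
  rw [Int.add_ediv_of_dvd_left h]
  have := carry_zero e b
  unfold carry at this
  rw [zero_add] at this
  rw [this, add_zero]

/-- digits of a D-type letter -/
def DD (m : ℕ) (a : X) : Prop := 1 ≤ (dig e a).val ∧ (dig e a).val ≤ m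

instance (m : ℕ) (a : X) : Decidable (DD e m a) := by unfold DD; infer_instance

/-- the action on the spine tree -/
def S : (ℕ → ℕ) → ℤ → ZMod p → List X → List X
  | _, _, _, [] => []
  | _, _, _, [a] => [a]
  | s, x, y, a :: b :: w =>
    if DD e (s 0) a then a :: rot e ((x : ZMod p) - dig e a * y) b :: w
    else a :: rot e (x : ZMod p) b :: S (fun n => s (n + 1)) (carry e x b) y w

lemma S_add (L : ℕ) : ∀ (s : ℕ → ℕ) (x x' : ℤ) (y y' : ZMod p) (w : List X), w.length ≤ L →
    S e s (x + x') (y + y') w = S e s x y (S e s x' y' w) := by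
  induction L using Nat.strong_induction_on with
  | _ L ih =>
    intro s x x' y y' w hw
    match w with
    | [] => rfl
    | [a] => rfl
    | a :: b :: w =>
      by_cases h : DD e (s 0) a
      · rw [S, if_pos h, S, if_pos h, S, if_pos h, ← rot_add]
        congr 3
        push_cast
        ring
      · rw [S, if_neg h, S, if_neg h, S, if_neg h, ← rot_add, ← Int.cast_add, carry_add]
        congr 2
        simp only [List.length_cons] at hw
        exact ih (L - 1) (by omega) _ _ _ _ _ _ (by omega)

lemma S_zero (L : ℕ) : ∀ (s : ℕ → ℕ) (w : List X), w.length ≤ L → S e s 0 0 w = w := by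
  induction L using Nat.strong_induction_on with
  | _ L ih =>
    intro s w hw
    match w with
    | [] => rfl
    | [a] => rfl
    | a :: b :: w =>
      by_cases h : DD e (s 0) a
      · rw [S, if_pos h, Int.cast_zero, mul_zero, sub_zero, rot_zero]
      · rw [S, if_neg h, Int.cast_zero, rot_zero, carry_zero]
        congr 2
        simp only [List.length_cons] at hw
        exact ih (L - 1) (by omega) _ _ (by omega)

lemma S_length (L : ℕ) : ∀ (s : ℕ → ℕ) (x : ℤ) (y : ZMod p) (w : List X), w.length ≤ L →
    (S e s x y w).length = w.length := by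
  induction L using Nat.strong_induction_on with
  | _ L ih =>
    intro s x y w hw
    match w with
    | [] => rfl
    | [a] => rfl
    | a :: b :: w =>
      by_cases h : DD e (s 0) a
      · rw [S, if_pos h]
        rfl
      · rw [S, if_neg h]
        simp only [List.length_cons] at hw ⊢
        rw [ih (L - 1) (by omega) _ _ _ _ (by omega)]

/-- compatibility with initial segments -/
lemma S_append (L : ℕ) : ∀ (s : ℕ → ℕ) (x : ℤ) (y : ZMod p) (v w : List X), v.length ≤ L →
    S e s x y v <+: S e s x y (v ++ w) := by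
  induction L using Nat.strong_induction_on with
  | _ L ih =>
    intro s x y v w hw
    match v with
    | [] => exact List.nil_prefix
    | [a] =>
      cases w with
      | nil => exact List.prefix_rfl
      | cons b w =>
        by_cases h : DD e (s 0) a
        · have h1 : S e s x y [a] = [a] := rfl
          rw [List.singleton_append, h1, S, if_pos h, List.cons_prefix_cons]
          exact ⟨rfl, List.nil_prefix⟩
        · have h1 : S e s x y [a] = [a] := rfl
          rw [List.singleton_append, h1, S, if_neg h, List.cons_prefix_cons]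
          exact ⟨rfl, List.nil_prefix⟩
    | a :: b :: v =>
      by_cases h : DD e (s 0) a
      · rw [S, if_pos h, List.cons_append, List.cons_append, S, if_pos h, List.cons_prefix_cons,
          List.cons_prefix_cons]
        exact ⟨rfl, rfl, List.prefix_append _ _⟩
      · rw [S, if_neg h, List.cons_append, List.cons_append, S, if_neg h, List.cons_prefix_cons,
          List.cons_prefix_cons]
        simp only [List.length_cons] at hw
        exact ⟨rfl, rfl, ih (L - 1) (by omega) _ _ _ _ _ (by omega)⟩

/-- the action on words of length at most `L` only depends on `x` modulo `p ^ L` -/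
lemma S_congr (L : ℕ) : ∀ (s : ℕ → ℕ) (t : ℤ) (w : List X), w.length ≤ L →
    S e s (t * (p : ℤ) ^ L) 0 w = w := by
  induction L using Nat.strong_induction_on with
  | _ L ih =>
    intro s t w hw
    match w with
    | [] => rfl
    | [a] => rfl
    | a :: b :: w =>
      simp only [List.length_cons] at hw
      obtain ⟨l, rfl⟩ : ∃ l, L = l + 1 := ⟨L - 1, by omega⟩
      have hp0 : (p : ℤ) ≠ 0 := by exact_mod_cast hp.out.ne_zero
      have h0 : ((t * (p : ℤ) ^ (l + 1) : ℤ) : ZMod p) = 0 := by
        push_cast
        rw [ZMod.natCast_self, zero_pow (by omega), mul_zero]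
      by_cases h : DD e (s 0) a
      · rw [S, if_pos h, h0, mul_zero, sub_zero, rot_zero]
      · rw [S, if_neg h, h0, rot_zero]
        congr 2
        have h1 : (p : ℤ) ∣ t * (p : ℤ) ^ (l + 1) := by
          rw [pow_succ, ← mul_assoc]
          exact dvd_mul_left _ _
        rw [carry_of_dvd e h1, pow_succ, ← mul_assoc, Int.mul_ediv_cancel _ hp0]
        exact ih l (by omega) _ _ _ (by omega)

/-- some word of length `L` is fixed -/
def F (L : ℕ) (s : ℕ → ℕ) (x : ℤ) (y : ZMod p) : Prop := ∃ w : List X, w.length = L ∧ S e s x y w = w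

lemma F_zero (s : ℕ → ℕ) (x : ℤ) (y : ZMod p) : F e 0 s x y := ⟨[], rfl, rfl⟩

variable [Nonempty Y]

lemma exists_dig (c : ZMod p) : ∃ a : X, dig e a = c := by
  obtain ⟨y⟩ := ‹Nonempty Y›
  exact ⟨e.symm (c, y), by unfold dig; rw [e.apply_symm_apply]⟩

lemma F_one (s : ℕ → ℕ) (x : ℤ) (y : ZMod p) : F e 1 s x y := by
  obtain ⟨a, _⟩ := exists_dig e (0 : ZMod p)
  exact ⟨[a], rfl, rfl⟩

lemma F_succ (L : ℕ) (s : ℕ → ℕ) (x : ℤ) (y : ZMod p) : F e (L + 2) s x y ↔
    (∃ c : ZMod p, 1 ≤ c.val ∧ c.val ≤ s 0 ∧ (x : ZMod p) = c * y) ∨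
      ((p : ℤ) ∣ x ∧ F e L (fun n => s (n + 1)) (x / p) y) := by
  constructor
  · rintro ⟨w, hw, hfix⟩
    match w, hw, hfix with
    | a :: b :: w, hw, hfix =>
      by_cases h : DD e (s 0) a
      · left
        rw [S, if_pos h] at hfix
        simp only [List.cons.injEq, true_and, and_true] at hfix
        rw [rot_eq_iff, sub_eq_zero] at hfix
        exact ⟨dig e a, h.1, h.2, hfix⟩
      · right
        rw [S, if_neg h] at hfix
        simp only [List.cons.injEq, true_and] at hfix
        rw [rot_eq_iff, ZMod.intCast_zmod_eq_zero_iff_dvd] at hfix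
        refine ⟨hfix.1, w, by simpa using hw, ?_⟩
        rw [← carry_of_dvd e hfix.1 b]
        exact hfix.2
  · rintro (⟨c, h1, h2, h3⟩ | ⟨h1, w, hw, h2⟩)
    · obtain ⟨a, ha⟩ := exists_dig e c
      have h : DD e (s 0) a := by
        unfold DD
        rw [ha]
        exact ⟨h1, h2⟩
      refine ⟨a :: a :: List.replicate L a, by simp, ?_⟩
      rw [S, if_pos h, ha, h3, sub_self, rot_zero]
    · obtain ⟨a, ha⟩ := exists_dig e (0 : ZMod p)
      have h : ¬ DD e (s 0) a := by
        unfold DD
        rw [ha]
        simp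
      refine ⟨a :: a :: w, by simp [hw], ?_⟩
      rw [S, if_neg h, (ZMod.intCast_zmod_eq_zero_iff_dvd _ _).mpr h1, rot_zero,
        carry_of_dvd e h1, h2]

/-! ### counting -/

open Finset in
/-- splitting off the last digit -/
lemma count_split (K : ℕ) (P : ℕ → Prop) [DecidablePred P] :
    ((range (K * p)).filter P).card = ∑ x ∈ range K, ((range p).filter (fun r => P (r + p * x))).card := by
  induction K with
  | zero => simp
  | succ K ih =>
    rw [sum_range_succ, ← ih]
    simp only [card_filter]
    rw [Nat.succ_mul, Finset.sum_range_add]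
    congr 1
    apply Finset.sum_congr rfl
    intro r _
    rw [mul_comm K p, add_comm]

open Classical in
/-- number of residues modulo `p ^ M` fixing a word of length `L` -/
noncomputable def cnt (M L : ℕ) (s : ℕ → ℕ) (y : ZMod p) : ℕ :=
  ((Finset.range (p ^ M)).filter (fun x : ℕ => F e L s (x : ℤ) y)).card

lemma cnt_zero (M : ℕ) (s : ℕ → ℕ) (y : ZMod p) : cnt e M 0 s y = p ^ M := by
  classical
  unfold cnt
  rw [Finset.filter_true_of_mem (fun x _ => F_zero e s _ y), Finset.card_range]

lemma cnt_one (M : ℕ) (s : ℕ → ℕ) (y : ZMod p) : cnt e M 1 s y = p ^ M := by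
  classical
  unfold cnt
  rw [Finset.filter_true_of_mem (fun x _ => F_one e s _ y), Finset.card_range]

lemma cnt_succ (M L : ℕ) (s : ℕ → ℕ) (y : ZMod p) (hs : s 0 < p) (hy : y ≠ 0 ∨ s 0 = 0) :
    cnt e (M + 1) (L + 2) s y = s 0 * p ^ M + cnt e M L (fun n => s (n + 1)) y := by
  classical
  have hp2 := hp.out.two_le
  unfold cnt
  rw [pow_succ, count_split]
  have key : ∀ x : ℕ, ((Finset.range p).filter (fun r => F e (L + 2) s ((r + p * x : ℕ) : ℤ) y)).card
      = s 0 + if F e L (fun n => s (n + 1)) (x : ℤ) y then 1 else 0 := by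
    intro x
    have hF : ∀ r ∈ Finset.range p, F e (L + 2) s ((r + p * x : ℕ) : ℤ) y ↔
        (∃ c : ZMod p, 1 ≤ c.val ∧ c.val ≤ s 0 ∧ (r : ZMod p) = c * y) ∨
          (r = 0 ∧ F e L (fun n => s (n + 1)) (x : ℤ) y) := by
      intro r hr
      rw [Finset.mem_range] at hr
      rw [F_succ]
      have h1 : (((r + p * x : ℕ) : ℤ) : ZMod p) = (r : ZMod p) := by
        push_cast
        rw [ZMod.natCast_self, zero_mul, add_zero]
      have h2 : (p : ℤ) ∣ ((r + p * x : ℕ) : ℤ) ↔ r = 0 := by
        rw [Int.natCast_dvd_natCast, Nat.dvd_add_left (dvd_mul_right p x)]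
        constructor
        · intro h
          exact Nat.eq_zero_of_dvd_of_lt h hr
        · rintro rfl
          exact dvd_zero _
      rw [h1, h2]
      apply or_congr Iff.rfl
      apply and_congr_right
      rintro rfl
      have h3 : ((0 + p * x : ℕ) : ℤ) / p = (x : ℤ) := by
        push_cast
        rw [zero_add]
        exact Int.mul_ediv_cancel_left _ (by exact_mod_cast hp.out.ne_zero)
      rw [h3]
    rw [Finset.filter_congr hF, Finset.filter_or, Finset.card_union_of_disjoint]
    · congr 1
      · -- the residues `c * y`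
        rcases hy with hy | hy
        · have h4 : (Finset.range p).filter (fun r : ℕ => ∃ c : ZMod p, 1 ≤ c.val ∧ c.val ≤ s 0 ∧
              (r : ZMod p) = c * y) =
              ((Finset.Icc 1 (s 0)).image (fun c : ℕ => ((c : ZMod p) * y).val)) := by
            ext r
            rw [Finset.mem_filter, Finset.mem_range, Finset.mem_image]
            constructor
            · rintro ⟨hr, c, h1, h2, h3⟩
              refine ⟨c.val, Finset.mem_Icc.mpr ⟨h1, h2⟩, ?_⟩
              rw [ZMod.natCast_zmod_val, ← h3, ZMod.val_natCast, Nat.mod_eq_of_lt hr]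
            · rintro ⟨c, hc, rfl⟩
              rw [Finset.mem_Icc] at hc
              refine ⟨ZMod.val_lt _, (c : ZMod p), ?_, ?_, ?_⟩
              · rw [ZMod.val_natCast, Nat.mod_eq_of_lt (by omega)]
                exact hc.1
              · rw [ZMod.val_natCast, Nat.mod_eq_of_lt (by omega)]
                exact hc.2
              · rw [ZMod.natCast_zmod_val]
          rw [h4, Finset.card_image_of_injOn, Nat.card_Icc, Nat.add_sub_cancel]
          intro c hc c' hc' h
          rw [Finset.mem_coe, Finset.mem_Icc] at hc hc'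
          have h5 := mul_right_cancel₀ hy (ZMod.val_injective p h)
          have h6 := congrArg ZMod.val h5
          rwa [ZMod.val_natCast, ZMod.val_natCast, Nat.mod_eq_of_lt (by omega),
            Nat.mod_eq_of_lt (by omega)] at h6
        · rw [hy, Finset.card_eq_zero, Finset.filter_eq_empty_iff]
          rintro r _ ⟨c, h1, h2, _⟩
          omega
      · -- the residue zero
        by_cases h : F e L (fun n => s (n + 1)) (x : ℤ) y
        · rw [if_pos h]
          have : (Finset.range p).filter (fun r : ℕ => r = 0 ∧ F e L (fun n => s (n + 1)) (x : ℤ) y) =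
              {0} := by
            ext r
            rw [Finset.mem_filter, Finset.mem_range, Finset.mem_singleton]
            constructor
            · rintro ⟨_, h, _⟩
              exact h
            · rintro rfl
              exact ⟨by omega, rfl, h⟩
          rw [this, Finset.card_singleton]
        · rw [if_neg h, Finset.card_eq_zero, Finset.filter_eq_empty_iff]
          rintro r _ ⟨_, h'⟩
          exact h h'
    · rw [Finset.disjoint_filter]
      rintro r hr ⟨c, h1, h2, h3⟩ ⟨rfl, _⟩
      rcases hy with hy | hy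
      · rw [Nat.cast_zero] at h3
        rcases mul_eq_zero.mp h3.symm with h4 | h4
        · rw [h4] at h1
          simp at h1
        · exact hy h4
      · omega
  rw [Finset.sum_congr rfl (fun x _ => key x), Finset.sum_add_distrib, Finset.sum_const,
    Finset.card_range, smul_eq_mul, mul_comm, ← Finset.card_filter]

/-- the density -/
noncomputable def dens (p : ℕ) (L : ℕ) (s : ℕ → ℕ) : ℝ :=
  match L with
  | 0 => 1
  | 1 => 1
  | L + 2 => ((s 0 : ℝ) + dens p L (fun n => s (n + 1))) / p

lemma cnt_eq (L : ℕ) : ∀ (M : ℕ) (s : ℕ → ℕ) (y : ZMod p), L ≤ M → (∀ n, s n < p) →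
    (y ≠ 0 ∨ ∀ n, s n = 0) → (cnt e M L s y : ℝ) = (p : ℝ) ^ M * dens p L s := by
  induction L using Nat.strong_induction_on with
  | _ L ih =>
    intro M s y hM hs hy
    match L, ih, hM with
    | 0, _, _ => rw [cnt_zero, dens]; push_cast; ring
    | 1, _, _ => rw [cnt_one, dens]; push_cast; ring
    | L + 2, ih, hM =>
      obtain ⟨M, rfl⟩ : ∃ m, M = m + 1 := ⟨M - 1, by omega⟩
      have hp0 : (p : ℝ) ≠ 0 := by exact_mod_cast hp.out.ne_zero
      rw [cnt_succ e M L s y (hs 0) (hy.imp_right (fun h => h 0)), dens]
      push_cast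
      rw [ih L (by omega) M _ y (by omega) (fun n => hs _) (hy.imp_right (fun h n => h _)), pow_succ]
      field_simp

lemma dens_zero_seq (L : ℕ) : dens p L (fun _ => 0) ≤ (1 / p : ℝ) ^ (L / 2) ∧
    0 ≤ dens p L (fun _ => 0) := by
  induction L using Nat.strong_induction_on with
  | _ L ih =>
    match L, ih with
    | 0, _ => rw [dens]; simp
    | 1, _ => rw [dens]; simp
    | L + 2, ih =>
      obtain ⟨h1, h2⟩ := ih L (by omega)
      have hp0 : (0 : ℝ) < p := by exact_mod_cast hp.out.pos
      rw [dens, Nat.cast_zero, zero_add, show (L + 2) / 2 = L / 2 + 1 by omega, pow_succ]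
      constructor
      · rw [div_eq_mul_one_div]
        exact mul_le_mul_of_nonneg_right h1 (by positivity)
      · positivity

lemma sub_aux {G D B B' P : ℝ} (h : B = (G + B') / P) : (G + D) / P - B = (D - B') / P := by
  rw [h]
  ring

/-- base `p` digits -/
lemma exists_digits (β : ℝ) (h0 : 0 ≤ β) (h1 : β ≤ 1) : ∃ s : ℕ → ℕ, (∀ n, s n < p) ∧
    Filter.Tendsto (fun L => dens p L s) Filter.atTop (nhds β) := by
  have hp0 : (0 : ℝ) < p := by exact_mod_cast hp.out.pos
  have hp2 := hp.out.two_le
  let dg : ℝ → ℕ := fun b => min (p - 1) ⌊(p : ℝ) * b⌋₊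
  let nx : ℝ → ℝ := fun b => p * b - dg b
  let b : ℕ → ℝ := fun n => nx^[n] β
  have hb : ∀ n, 0 ≤ b n ∧ b n ≤ 1 := by
    intro n
    induction n with
    | zero => exact ⟨h0, h1⟩
    | succ n ih =>
      have hn : b (n + 1) = p * b n - dg (b n) := Function.iterate_succ_apply' nx n β
      rw [hn]
      have h2 : (0 : ℝ) ≤ p * b n := mul_nonneg hp0.le ih.1
      have h3 := Nat.floor_le h2
      have h4 := Nat.lt_floor_add_one ((p : ℝ) * b n)
      rcases le_total (p - 1) ⌊(p : ℝ) * b n⌋₊ with h5 | h5
      · have h6 : dg (b n) = p - 1 := min_eq_left h5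
        rw [h6]
        have h7 : ((p - 1 : ℕ) : ℝ) = (p : ℝ) - 1 := by
          rw [Nat.cast_sub (by omega)]
          simp
        have h8 : ((p - 1 : ℕ) : ℝ) ≤ ⌊(p : ℝ) * b n⌋₊ := by exact_mod_cast h5
        have h9 : (p : ℝ) * b n ≤ p := by
          calc (p : ℝ) * b n ≤ p * 1 := mul_le_mul_of_nonneg_left ih.2 hp0.le
            _ = p := mul_one _
        constructor
        · linarith
        · rw [h7]
          linarith
      · have h6 : dg (b n) = ⌊(p : ℝ) * b n⌋₊ := min_eq_right h5
        rw [h6]
        constructor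
        · linarith
        · linarith
  have key : ∀ L j, |dens p L (fun n => dg (b (n + j))) - b j| ≤ (1 / p : ℝ) ^ (L / 2) := by
    intro L
    induction L using Nat.strong_induction_on with
    | _ L ih =>
      intro j
      match L, ih with
      | 0, _ =>
        rw [dens]
        simp only [Nat.zero_div, pow_zero]
        rw [abs_le]
        constructor <;> linarith [(hb j).1, (hb j).2]
      | 1, _ =>
        rw [dens]
        rw [show 1 / 2 = 0 from rfl, pow_zero, abs_le]
        constructor <;> linarith [(hb j).1, (hb j).2]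
      | L + 2, ih =>
        have hn : b (j + 1) = p * b j - dg (b j) := Function.iterate_succ_apply' nx j β
        have h2 := ih L (by omega) (j + 1)
        have h3 : (fun n => dg (b (n + 1 + j))) = (fun n => dg (b (n + (j + 1)))) := by
          funext n
          rw [add_assoc, add_comm 1 j]
        have h4 : b j = ((dg (b j) : ℝ) + b (j + 1)) / p := by
          rw [hn]
          field_simp
          ring
        rw [dens, h3, zero_add, show (L + 2) / 2 = L / 2 + 1 by omega, pow_succ]
        calc |((dg (b j) : ℝ) + dens p L (fun n => dg (b (n + (j + 1))))) / p - b j|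
            = |(dens p L (fun n => dg (b (n + (j + 1)))) - b (j + 1)) / p| := by
              rw [sub_aux h4]
          _ = |dens p L (fun n => dg (b (n + (j + 1)))) - b (j + 1)| * (1 / p) := by
              rw [abs_div, abs_of_pos hp0, div_eq_mul_one_div]
          _ ≤ _ := mul_le_mul_of_nonneg_right h2 (by positivity)
  refine ⟨fun n => dg (b n), fun n => ?_, ?_⟩
  · exact lt_of_le_of_lt (min_le_left _ _) (by omega)
  · rw [tendsto_iff_norm_sub_tendsto_zero]
    have h5 : Filter.Tendsto (fun L : ℕ => (1 / p : ℝ) ^ (L / 2)) Filter.atTop (nhds 0) := by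
      have h6 : Filter.Tendsto (fun L : ℕ => L / 2) Filter.atTop Filter.atTop :=
        Nat.tendsto_div_const_atTop (by norm_num)
      have h7 : (1 / p : ℝ) < 1 := by
        rw [div_lt_one hp0]
        exact_mod_cast hp.out.one_lt
      exact (tendsto_pow_atTop_nhds_zero_of_lt_one (by positivity) h7).comp h6
    refine squeeze_zero (fun L => norm_nonneg _) (fun L => ?_) h5
    exact key L 0

end Pool.Agent.R632.FPPAct
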