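import Mathlib

/-! The group of finitary automorphisms of the binary rooted tree. Vertices are lists of bits, the
parent of a nonempty list is its tail. -/

namespace Pool.Agent.R632.FinBin

open Equiv

/-- the label of `g` at the vertex `w` -/
def lab (g : Perm (List Bool)) (w : List Bool) : Bool := (g (false :: w)).headD false

/-- `g` is a tree automorphism -/
def IsAut (g : Perm (List Bool)) : Prop :=
  g [] = [] ∧ ∀ x w, g (x :: w) = (xor x (lab g w)) :: g w

lemma isAut_of {g : Perm (List Bool)} (f : List Bool → Bool) (h0 : g [] = [])
    (h : ∀ x w, g (x :: w) = (xor x (f w)) :: g w) : IsAut g ∧ ∀ w, lab g w = f w := by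
  have h1 : ∀ w, lab g w = f w := by
    intro w
    unfold lab
    rw [h]
    simp
  refine ⟨⟨h0, fun x w => ?_⟩, h1⟩
  rw [h, h1]

lemma mul_spec {g h : Perm (List Bool)} (hg : IsAut g) (hh : IsAut h) :
    IsAut (g * h) ∧ ∀ w, lab (g * h) w = xor (lab h w) (lab g (h w)) := by
  apply isAut_of
  · rw [Perm.mul_apply, hh.1, hg.1]
  · intro x w
    rw [Perm.mul_apply, hh.2, hg.2, Perm.mul_apply]
    congr 1
    rw [Bool.xor_assoc]

lemma one_spec : IsAut 1 ∧ ∀ w, lab 1 w = false := by
  apply isAut_of (fun _ => false) rfl
  intro x w
  simp

lemma inv_spec {g : Perm (List Bool)} (hg : IsAut g) :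
    IsAut g⁻¹ ∧ ∀ w, lab g⁻¹ w = lab g (g⁻¹ w) := by
  apply isAut_of
  · rw [Perm.inv_eq_iff_eq, hg.1]
  · intro x w
    rw [Perm.inv_eq_iff_eq, hg.2]
    rw [Bool.xor_assoc, Bool.xor_self, Bool.xor_false]
    simp

lemma length_eq {g : Perm (List Bool)} (hg : IsAut g) (w : List Bool) :
    (g w).length = w.length := by
  induction w with
  | nil => rw [hg.1]
  | cons x w ih => rw [hg.2, List.length_cons, ih, List.length_cons]

/-- the finitary group -/
def G : Subgroup (Perm (List Bool)) where
  carrier := {g | IsAut g ∧ {w | lab g w = true}.Finite}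
  mul_mem' := by
    rintro g h ⟨hg, hgf⟩ ⟨hh, hhf⟩
    obtain ⟨h1, h2⟩ := mul_spec hg hh
    refine ⟨h1, (hhf.union (hgf.preimage (h.injective.injOn))).subset ?_⟩
    intro w hw
    simp only [Set.mem_ofPred_eq, h2] at hw
    simp only [Set.mem_union, Set.mem_ofPred_eq, Set.mem_preimage]
    by_contra hcon
    push Not at hcon
    simp only [ne_eq, Bool.not_eq_true] at hcon
    rw [hcon.1, hcon.2] at hw
    simp at hw
  one_mem' := by
    refine ⟨one_spec.1, ?_⟩
    have : {w | lab (1 : Perm (List Bool)) w = true} = ∅ := by
      ext w
      simp [one_spec.2]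
    rw [this]
    exact Set.finite_empty
  inv_mem' := by
    rintro g ⟨hg, hgf⟩
    obtain ⟨h1, h2⟩ := inv_spec hg
    refine ⟨h1, ?_⟩
    have : {w | lab g⁻¹ w = true} = (g⁻¹ : Perm (List Bool)) ⁻¹' {w | lab g w = true} := by
      ext w
      simp [h2]
    rw [this]
    exact hgf.preimage (g⁻¹ : Perm (List Bool)).injective.injOn

/-- the flip at `u`: acts on the vertices below `u` -/
def flipFun (u : List Bool) : List Bool → List Bool
  | [] => []
  | x :: w => (xor x (decide (w = u))) :: flipFun u w

lemma flipFun_of_not {u w : List Bool} (h : w.length ≤ u.length) : flipFun u w = w := by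
  induction w with
  | nil => rfl
  | cons x w ih =>
    rw [flipFun]
    have h1 : w ≠ u := by
      rintro rfl
      simp at h
    rw [ih (by simp at h; omega)]
    simp [h1]

lemma flipFun_eq_iff (u w : List Bool) : flipFun u w = u ↔ w = u := by
  constructor
  · intro h
    have hl : ∀ w : List Bool, (flipFun u w).length = w.length := by
      intro w
      induction w with
      | nil => rfl
      | cons x w ih => simp [flipFun, ih]
    have h1 : w.length = u.length := by rw [← hl w, h]
    rw [flipFun_of_not h1.le] at h
    exact h
  · rintro rfl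
    exact flipFun_of_not le_rfl

lemma flipFun_flipFun (u w : List Bool) : flipFun u (flipFun u w) = w := by
  induction w with
  | nil => rfl
  | cons x w ih =>
    rw [flipFun, flipFun, ih]
    congr 1
    by_cases h : w = u
    · subst h
      simp [flipFun_of_not]
    · have h' : flipFun u w ≠ u := fun h1 => h ((flipFun_eq_iff u w).mp h1)
      simp [h, h']

/-- the flip as a permutation -/
def flip (u : List Bool) : Perm (List Bool) where
  toFun := flipFun u
  invFun := flipFun u
  left_inv := flipFun_flipFun u
  right_inv := flipFun_flipFun u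

lemma flip_spec (u : List Bool) : IsAut (flip u) ∧ ∀ w, lab (flip u) w = decide (w = u) :=
  isAut_of _ rfl (fun _ _ => rfl)

lemma flip_apply_self (u : List Bool) : flip u u = u := flipFun_of_not le_rfl

lemma flip_mem (u : List Bool) : flip u ∈ G := by
  refine ⟨(flip_spec u).1, ?_⟩
  refine (Set.finite_singleton u).subset ?_
  intro w hw
  simpa [(flip_spec u).2] using hw

lemma flip_apply_of_not_below {u w : List Bool} (h : ∀ k, List.tail^[k] w ≠ u) : flip u w = w := by
  show flipFun u w = w
  induction w with
  | nil => rfl
  | cons x w ih =>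
    have h1 : ∀ k, List.tail^[k] w ≠ u := by
      intro k
      have := h (k + 1)
      rwa [Function.iterate_succ_apply, List.tail_cons] at this
    have h2 : w ≠ u := h1 0
    rw [flipFun, ih h1]
    simp [h2]

/-- an element of the finitary group all of whose labels vanish on the levels `< n` is a product of
flips at vertices of levels `≥ n` -/
lemma mem_closure_flip (n : ℕ) (K : Subgroup G)
    (hK : ∀ u : List Bool, n ≤ u.length → (⟨flip u, flip_mem u⟩ : G) ∈ K) :
    ∀ (c : ℕ) (g : G), (g.2.2.toFinset.card = c) →
      (∀ w : List Bool, w.length < n → lab g.1 w = false) → g ∈ K := by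
  intro c
  induction c with
  | zero =>
    intro g hg _
    have h1 : ∀ w, lab g.1 w = false := by
      intro w
      by_contra hcon
      have : w ∈ g.2.2.toFinset := by simpa using hcon
      rw [Finset.card_eq_zero.mp hg] at this
      simp at this
    have h2 : g = 1 := by
      apply Subtype.ext
      ext1 w
      induction w with
      | nil => rw [g.2.1.1]; rfl
      | cons x w ih => rw [g.2.1.2, h1, ih]; simp
    rw [h2]
    exact K.one_mem
  | succ c ih =>
    intro g hg hn
    have hne : g.2.2.toFinset.Nonempty := by
      rw [← Finset.card_pos, hg]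
      omega
    obtain ⟨u, hu⟩ := hne
    have hu' : lab g.1 u = true := by simpa using hu
    have hun : n ≤ u.length := by
      by_contra hcon
      have := hn u (by omega)
      rw [this] at hu'
      exact absurd hu' (by simp)
    let d : G := ⟨flip u, flip_mem u⟩
    have hd : d ∈ K := hK u hun
    have hspec := (mul_spec g.2.1 (flip_spec u).1).2
    have key : ∀ w, lab (g * d).1 w = xor (decide (w = u)) (lab g.1 (flip u w)) := by
      intro w
      have := hspec w
      rw [(flip_spec u).2] at this
      exact this
    have hset : (g * d).2.2.toFinset = (g.2.2.toFinset.erase u).map (flip u).toEmbedding := by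
      ext w
      simp only [Set.Finite.mem_toFinset, Set.mem_ofPred_eq, Finset.mem_map, Finset.mem_erase,
        Equiv.coe_toEmbedding, key]
      have hff : ∀ w, flip u (flip u w) = w := flipFun_flipFun u
      constructor
      · intro h
        refine ⟨flip u w, ⟨?_, ?_⟩, hff w⟩
        · intro h1
          have h2 : w = u := (flipFun_eq_iff u w).mp h1
          subst h2
          rw [flip_apply_self, hu'] at h
          simp at h
        · by_cases h1 : w = u
          · subst h1
            rw [flip_apply_self, hu'] at h
            simp at h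
          · simpa [h1] using h
      · rintro ⟨v, ⟨hv1, hv2⟩, rfl⟩
        rw [hff, hv2]
        have : flip u v ≠ u := fun h1 => hv1 ((flipFun_eq_iff u v).mp h1)
        simp [this]
    have h3 : g * d ∈ K := by
      apply ih
      · rw [hset, Finset.card_map, Finset.card_erase_of_mem hu, hg]
        rfl
      · intro w hw
        rw [key]
        have h1 : w ≠ u := by
          rintro rfl
          omega
        have h2 : flip u w = w := flipFun_of_not (by omega)
        rw [h2, hn w hw]
        simp [h1]
    have : g = (g * d) * d⁻¹ := by group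
    rw [this]
    exact K.mul_mem h3 (K.inv_mem hd)

end Pool.Agent.R632.FinBin
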