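import Mathlib

/-! Uniqueness of the number of factors in powers of a directly indecomposable group with trivial
centre. -/

set_option linter.unusedSectionVars false

namespace Pool.Agent.R632.KS

/-- trivial centre -/
def Centerless (G : Type*) [Group G] : Prop := ∀ z : G, (∀ g : G, z * g = g * z) → z = 1

/-- directly indecomposable -/
def Indec (G : Type*) [Group G] : Prop :=
  ∀ A B : Subgroup G, (∀ a ∈ A, ∀ b ∈ B, a * b = b * a) → (∀ g : G, ∃ a ∈ A, ∃ b ∈ B, g = a * b) →
    A = ⊥ ∨ B = ⊥

variable {G : Type*} [Group G]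

/-- commuting subgroups with product `G` -/
def Dec (A B : Subgroup G) : Prop :=
  (∀ a ∈ A, ∀ b ∈ B, a * b = b * a) ∧ ∀ g : G, ∃ a ∈ A, ∃ b ∈ B, g = a * b

lemma Dec.inf (hG : Centerless G) {A B : Subgroup G} (h : Dec A B) {x : G} (hA : x ∈ A)
    (hB : x ∈ B) : x = 1 := by
  apply hG
  intro g
  obtain ⟨a, ha, b, hb, rfl⟩ := h.2 g
  rw [← mul_assoc, ← h.1 a ha x hB, mul_assoc, h.1 x hA b hb, mul_assoc]

lemma Dec.uniq (hG : Centerless G) {A B : Subgroup G} (h : Dec A B) {a a' b b' : G} (ha : a ∈ A)
    (ha' : a' ∈ A) (hb : b ∈ B) (hb' : b' ∈ B) (he : a * b = a' * b') : a = a' := by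
  have h1 : a'⁻¹ * a = b' * b⁻¹ := by
    rw [inv_mul_eq_iff_eq_mul, ← mul_assoc, ← he]
    group
  have h2 := h.inf hG (A.mul_mem (A.inv_mem ha') ha)
    (by rw [h1]; exact B.mul_mem hb' (B.inv_mem hb))
  exact (inv_mul_eq_one.mp h2).symm

/-- the centralizer of a factor is the other factor -/
lemma Dec.mem_of_comm (hG : Centerless G) {A B : Subgroup G} (h : Dec A B) {x : G}
    (hx : ∀ b ∈ B, x * b = b * x) : x ∈ A := by
  obtain ⟨a, ha, b, hb, rfl⟩ := h.2 x
  have h1 : b = 1 := by
    apply hG
    intro g
    obtain ⟨a', ha', b', hb', rfl⟩ := h.2 g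
    have h2 : b * b' = b' * b := by
      have h3 := hx b' hb'
      rw [mul_assoc, ← mul_assoc b' a b, ← h.1 a ha b' hb', mul_assoc a b' b] at h3
      exact mul_left_cancel h3
    rw [← mul_assoc, ← h.1 a' ha' b hb, mul_assoc, h2, mul_assoc]
  rw [h1, mul_one]
  exact ha

/-- An indecomposable factor is contained in one of the factors of any decomposition. -/
lemma range_le {W : Type*} [Group W] (hW : Indec W) (hG : Centerless G) (f : W →* G)
    (hf : Function.Injective f) {V : Subgroup G} (hV : Dec f.range V) {A B : Subgroup G}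
    (h : Dec A B) : f.range ≤ A ∨ f.range ≤ B := by
  have key : ∀ w : W, ∃ w₁ w₂ : W, f w₁ ∈ A ∧ f w₂ ∈ B ∧ w = w₁ * w₂ := by
    intro w
    obtain ⟨a, ha, b, hb, hab⟩ := h.2 (f w)
    have h1 : a ∈ f.range := by
      apply hV.mem_of_comm hG
      intro v hv
      obtain ⟨a', ha', b', hb', hv'⟩ := h.2 v
      have h2 := hV.1 (f w) ⟨w, rfl⟩ v hv
      rw [hab, hv'] at h2
      have h3 : (a * a') * (b * b') = (a' * a) * (b' * b) := by
        calc (a * a') * (b * b') = a * (a' * b) * b' := by group
          _ = a * (b * a') * b' := by rw [h.1 a' ha' b hb]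
          _ = a * b * (a' * b') := by group
          _ = a' * b' * (a * b) := h2
          _ = a' * (b' * a) * b := by group
          _ = a' * (a * b') * b := by rw [h.1 a ha b' hb']
          _ = (a' * a) * (b' * b) := by group
      have h4 := h.uniq hG (A.mul_mem ha ha') (A.mul_mem ha' ha) (B.mul_mem hb hb')
        (B.mul_mem hb' hb) h3
      rw [hv', ← mul_assoc, h4, mul_assoc, h.1 a ha b' hb', mul_assoc]
    obtain ⟨w₁, rfl⟩ := h1
    refine ⟨w₁, w₁⁻¹ * w, ha, ?_, by group⟩
    rw [map_mul, hab, map_inv]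
    simpa using hb
  rcases hW (A.comap f) (B.comap f) (fun a ha b hb => hf (by
      rw [map_mul, map_mul]; exact h.1 _ ha _ hb)) (fun w => by
      obtain ⟨w₁, w₂, h1, h2, h3⟩ := key w
      exact ⟨w₁, h1, w₂, h2, h3⟩) with h1 | h1
  · right
    rintro _ ⟨w, rfl⟩
    obtain ⟨w₁, w₂, h2, h3, rfl⟩ := key w
    have h4 : w₁ ∈ A.comap f := h2
    rw [h1, Subgroup.mem_bot] at h4
    rw [h4, one_mul]
    exact h3
  · left
    rintro _ ⟨w, rfl⟩
    obtain ⟨w₁, w₂, h2, h3, rfl⟩ := key w
    have h4 : w₂ ∈ B.comap f := h3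
    rw [h1, Subgroup.mem_bot] at h4
    rw [h4, mul_one]
    exact h2

section power

variable {I : Type*} [DecidableEq I] {W : Type*} [Group W]

/-- the factor at `i` -/
def fac (W : Type*) [Group W] (i : I) : Subgroup (I → W) where
  carrier := {f | ∀ j, j ≠ i → f j = 1}
  mul_mem' := by
    intro f g hf hg j hj
    rw [Pi.mul_apply, hf j hj, hg j hj, one_mul]
  one_mem' := fun _ _ => rfl
  inv_mem' := by
    intro f hf j hj
    rw [Pi.inv_apply, hf j hj, inv_one]

/-- the complement of the factor at `i` -/
def cof (W : Type*) [Group W] (i : I) : Subgroup (I → W) where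
  carrier := {f | f i = 1}
  mul_mem' := by
    intro f g hf hg
    show f i * g i = 1
    rw [hf, hg, one_mul]
  one_mem' := rfl
  inv_mem' := by
    intro f hf
    show (f i)⁻¹ = 1
    rw [hf, inv_one]

lemma mem_fac {i : I} {f : I → W} : f ∈ fac W i ↔ ∀ j, j ≠ i → f j = 1 := Iff.rfl

lemma mem_cof {i : I} {f : I → W} : f ∈ cof W i ↔ f i = 1 := Iff.rfl

lemma dec_fac (i : I) : Dec (fac W i) (cof W i) := by
  refine ⟨fun a ha b hb => ?_, fun g => ?_⟩
  · funext j
    by_cases hj : j = i
    · subst hj
      rw [Pi.mul_apply, Pi.mul_apply, mem_cof.mp hb, one_mul, mul_one]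
    · rw [Pi.mul_apply, Pi.mul_apply, mem_fac.mp ha j hj, one_mul, mul_one]
  · refine ⟨Pi.mulSingle i (g i), fun j hj => Pi.mulSingle_eq_of_ne hj _,
      g * (Pi.mulSingle i (g i))⁻¹, ?_, ?_⟩
    · rw [mem_cof, Pi.mul_apply, Pi.inv_apply, Pi.mulSingle_eq_same, mul_inv_cancel]
    · funext j
      by_cases hj : j = i
      · subst hj
        simp
      · simp [hj]

lemma range_mulSingle (i : I) : (MonoidHom.mulSingle (fun _ : I => W) i).range = fac W i := by
  ext f
  constructor
  · rintro ⟨w, rfl⟩
    intro j hj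
    exact Pi.mulSingle_eq_of_ne hj _
  · intro hf
    refine ⟨f i, ?_⟩
    funext j
    by_cases hj : j = i
    · subst hj
      exact Pi.mulSingle_eq_same _ _
    · rw [mem_fac.mp hf j hj]
      exact Pi.mulSingle_eq_of_ne hj _

lemma single_inj (i : I) : Function.Injective (MonoidHom.mulSingle (fun _ : I => W) i) := by
  intro a b h
  have h1 := congrFun h i
  have h2 : ∀ c : W, (MonoidHom.mulSingle (fun _ : I => W) i) c i = c :=
    fun c => Pi.mulSingle_eq_same (M := fun _ : I => W) i c
  rwa [h2, h2] at h1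

lemma centerless_pi (hW : Centerless W) : Centerless (I → W) := by
  intro z hz
  funext i
  apply hW
  intro g
  have := congrFun (hz (Pi.mulSingle i g)) i
  simpa using this

lemma fac_inf {i j : I} (h : i ≠ j) {f : I → W} (hi : f ∈ fac W i) (hj : f ∈ fac W j) : f = 1 := by
  funext k
  by_cases hk : k = i
  · exact hj k (by rw [hk]; exact h)
  · exact hi k hk

end power

/-- `Dec` is preserved by isomorphisms -/
lemma Dec.map {H : Type*} [Group H] {A B : Subgroup G} (h : Dec A B) (e : G ≃* H) :
    Dec (A.map e.toMonoidHom) (B.map e.toMonoidHom) := by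
  constructor
  · rintro _ ⟨a, ha, rfl⟩ _ ⟨b, hb, rfl⟩
    show e a * e b = e b * e a
    rw [← map_mul, h.1 a ha b hb, map_mul]
  · intro g
    obtain ⟨a, ha, b, hb, hab⟩ := h.2 (e.symm g)
    refine ⟨e a, ⟨a, ha, rfl⟩, e b, ⟨b, hb, rfl⟩, ?_⟩
    rw [← map_mul, ← hab, e.apply_symm_apply]

section main

variable {I : Type*} [DecidableEq I] {W : Type*} [Group W]

/-- an automorphism permutes the factors -/
lemma exists_map_eq [Finite I] (hW : Indec W) (hc : Centerless W) (hn : Nontrivial W)
    (α : (I → W) ≃* (I → W)) (i : I) : ∃ i', (fac W i).map α.toMonoidHom = fac W i' := by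
  have hG := centerless_pi (I := I) hc
  have hd : Dec ((fac W i).map α.toMonoidHom) ((cof W i).map α.toMonoidHom) := (dec_fac i).map α
  obtain ⟨w, hw⟩ := exists_ne (1 : W)
  -- each factor is contained in one of the two
  have h1 : ∀ i', fac W i' ≤ (fac W i).map α.toMonoidHom ∨
      fac W i' ≤ (cof W i).map α.toMonoidHom := by
    intro i'
    have := range_le hW hG (MonoidHom.mulSingle (fun _ : I => W) i') (single_inj i')
      (V := cof W i') (by rw [range_mulSingle]; exact dec_fac i') hd
    rwa [range_mulSingle] at this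
  have h2 : ∃ i', fac W i' ≤ (fac W i).map α.toMonoidHom := by
    by_contra hcon
    push Not at hcon
    have h3 : ∀ f : I → W, f ∈ (cof W i).map α.toMonoidHom := by
      intro f
      have : Fintype I := Fintype.ofFinite I
      apply Subgroup.pi_mem_of_mulSingle_mem
      intro i'
      exact (h1 i').resolve_left (hcon i') (fun j hj => Pi.mulSingle_eq_of_ne hj _)
    obtain ⟨g, hg, hg'⟩ := h3 (α (Pi.mulSingle i w))
    have h4 : g = Pi.mulSingle i w := α.injective hg'
    rw [h4] at hg
    have h5 : (Pi.mulSingle i w : I → W) i = 1 := hg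
    rw [Pi.mulSingle_eq_same] at h5
    exact hw h5
  obtain ⟨i', hi'⟩ := h2
  refine ⟨i', le_antisymm ?_ hi'⟩
  have h3 := range_le hW hG (α.toMonoidHom.comp (MonoidHom.mulSingle (fun _ : I => W) i))
    (α.injective.comp (single_inj i)) (V := (cof W i).map α.toMonoidHom)
    (by rw [← MonoidHom.map_range, range_mulSingle]; exact hd) (dec_fac i')
  rw [← MonoidHom.map_range, range_mulSingle] at h3
  refine h3.resolve_right fun h4 => ?_
  have h5 : (Pi.mulSingle i' w : I → W) ∈ fac W i' := fun j hj => Pi.mulSingle_eq_of_ne hj _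
  have h6 := h4 (hi' h5)
  have h7 : (Pi.mulSingle i' w : I → W) i' = 1 := h6
  rw [Pi.mulSingle_eq_same] at h7
  exact hw h7

/-- If a power of a directly indecomposable group with trivial centre is an `n`-th power of a group,
then `n` divides the number of factors. -/
theorem card_dvd [Fintype I] {J : Type*} [Fintype J] [DecidableEq J] {K : Type*} [Group K]
    (hW : Indec W) (hc : Centerless W) (hn : Nontrivial W) (e : (I → W) ≃* (J → K)) :
    Fintype.card J ∣ Fintype.card I := by
  have hG := centerless_pi (I := I) hc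
  obtain ⟨w, hw⟩ := exists_ne (1 : W)
  have hdec : ∀ j : J, Dec ((fac K j).map e.symm.toMonoidHom) ((cof K j).map e.symm.toMonoidHom) :=
    fun j => (dec_fac j).map e.symm
  have mem_fac' : ∀ (j : J) (f : I → W), f ∈ (fac K j).map e.symm.toMonoidHom ↔ e f ∈ fac K j := by
    intro j f
    constructor
    · rintro ⟨g, hg, rfl⟩
      show e (e.symm g) ∈ _
      rw [e.apply_symm_apply]
      exact hg
    · intro h
      exact ⟨e f, h, e.symm_apply_apply f⟩
  have mem_cof' : ∀ (j : J) (f : I → W), f ∈ (cof K j).map e.symm.toMonoidHom ↔ e f ∈ cof K j := by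
    intro j f
    constructor
    · rintro ⟨g, hg, rfl⟩
      show e (e.symm g) ∈ _
      rw [e.apply_symm_apply]
      exact hg
    · intro h
      exact ⟨e f, h, e.symm_apply_apply f⟩
  have h1 : ∀ i : I, ∃ j : J, fac W i ≤ (fac K j).map e.symm.toMonoidHom := by
    intro i
    by_contra hcon
    push Not at hcon
    have h2 : ∀ j, fac W i ≤ (cof K j).map e.symm.toMonoidHom := by
      intro j
      have h3 := range_le hW hG (MonoidHom.mulSingle (fun _ : I => W) i) (single_inj i)
        (V := cof W i) (by rw [range_mulSingle]; exact dec_fac i) (hdec j)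
      rw [range_mulSingle] at h3
      exact h3.resolve_left (hcon j)
    have h3 : e (Pi.mulSingle i w) = 1 := by
      funext j
      exact (mem_cof' j _).mp (h2 j (fun j hj => Pi.mulSingle_eq_of_ne hj _))
    have h4 : (Pi.mulSingle i w : I → W) = 1 := by
      apply e.injective
      rw [h3, map_one]
    have h5 := congrFun h4 i
    rw [Pi.mulSingle_eq_same] at h5
    exact hw h5
  choose j hj using h1
  have huniq : ∀ i (k : J), fac W i ≤ (fac K k).map e.symm.toMonoidHom → j i = k := by
    intro i k hk
    by_contra hne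
    have h2 : (Pi.mulSingle i w : I → W) ∈ fac W i := fun j hj => Pi.mulSingle_eq_of_ne hj _
    have h3 := fac_inf hne ((mem_fac' _ _).mp (hj i h2)) ((mem_fac' _ _).mp (hk h2))
    have h4 : (Pi.mulSingle i w : I → W) = 1 := by
      apply e.injective
      rw [h3, map_one]
    have h5 := congrFun h4 i
    rw [Pi.mulSingle_eq_same] at h5
    exact hw h5
  -- all fibres of `j` have the same size
  have hle : ∀ k l : J, (Finset.univ.filter (fun i => j i = k)).card ≤
      (Finset.univ.filter (fun i => j i = l)).card := by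
    intro k l
    let σ : (J → K) ≃* (J → K) :=
      { toFun := fun f t => f (Equiv.swap k l t)
        invFun := fun f t => f (Equiv.swap k l t)
        left_inv := fun f => by funext t; simp
        right_inv := fun f => by funext t; simp
        map_mul' := fun f g => rfl }
    let α : (I → W) ≃* (I → W) := (e.trans σ).trans e.symm
    have h2 := exists_map_eq hW hc hn α
    choose π hπ using h2
    apply Finset.card_le_card_of_injOn π
    · intro i hi
      rw [Finset.mem_coe, Finset.mem_filter] at hi ⊢
      refine ⟨Finset.mem_univ _, huniq _ _ ?_⟩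
      rw [← hπ i]
      rintro _ ⟨f, hf, rfl⟩
      have h3 := (mem_fac' _ _).mp (hj i hf)
      rw [hi.2] at h3
      rw [mem_fac']
      have h4 : e (α f) = σ (e f) := by
        show e (e.symm (σ (e f))) = _
        rw [e.apply_symm_apply]
      show e (α f) ∈ _
      rw [h4]
      intro t ht
      show e f (Equiv.swap k l t) = 1
      apply h3
      intro h5
      apply ht
      have h6 := congrArg (Equiv.swap k l) h5
      rwa [Equiv.swap_apply_self, Equiv.swap_apply_left] at h6
    · intro i _ i' _ h
      by_contra hne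
      have h3 : (fac W i).map α.toMonoidHom = (fac W i').map α.toMonoidHom := by
        rw [hπ, hπ, h]
      have h4 := Subgroup.map_injective (f := α.toMonoidHom) α.injective h3
      have h5 : (Pi.mulSingle i w : I → W) ∈ fac W i := fun j hj => Pi.mulSingle_eq_of_ne hj _
      have h6 := h5
      rw [h4] at h6
      have h7 := fac_inf hne h5 h6
      have h8 := congrFun h7 i
      rw [Pi.mulSingle_eq_same] at h8
      exact hw h8
  have hcard : Fintype.card I = ∑ k : J, (Finset.univ.filter (fun i => j i = k)).card := by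
    rw [← Finset.card_univ]
    exact Finset.card_eq_sum_card_fiberwise (fun i _ => Finset.mem_coe.mpr (Finset.mem_univ _))
  rcases isEmpty_or_nonempty J with hJ | ⟨⟨k⟩⟩
  · rw [hcard]
    simp
  · rw [hcard, Finset.sum_congr rfl (fun l _ => le_antisymm (hle l k) (hle k l)), Finset.sum_const,
      Finset.card_univ, smul_eq_mul]
    exact dvd_mul_right _ _

end main

end Pool.Agent.R632.KS
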