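import Mathlib

/-! A subgroup of index two in the automorphism group of the binary rooted tree with an automorphism
which is not induced by a tree automorphism: the elements acting on the second level as translations.
Vertices are lists of bits; the ancestors of a list are its prefixes. -/

namespace Pool.Agent.R632.Klein

open Equiv

/-- prefix preserving -/
def PP (g : Perm (List Bool)) : Prop := ∀ v w : List Bool, v <+: w ↔ g v <+: g w

lemma PP.one : PP 1 := fun _ _ => Iff.rfl

lemma PP.mul {g h : Perm (List Bool)} (hg : PP g) (hh : PP h) : PP (g * h) := fun v w => by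
  rw [hh v w, hg (h v) (h w)]
  rfl

lemma PP.inv {g : Perm (List Bool)} (hg : PP g) : PP g⁻¹ := fun v w => by
  rw [hg (g⁻¹ v) (g⁻¹ w)]
  simp

lemma PP.of_forward {g : Perm (List Bool)} (h1 : ∀ v w : List Bool, v <+: w → g v <+: g w)
    (h2 : ∀ v w : List Bool, v <+: w → g⁻¹ v <+: g⁻¹ w) : PP g := fun v w => by
  refine ⟨h1 v w, fun h => ?_⟩
  have := h2 _ _ h
  simpa using this

lemma PP.le_length {g : Perm (List Bool)} (hg : PP g) (v : List Bool) : v.length ≤ (g v).length := by
  induction v using List.reverseRecOn with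
  | nil => simp
  | append_singleton v x ih =>
    have h1 : g v <+: g (v ++ [x]) := (hg _ _).mp (List.prefix_append v [x])
    have h2 : g v ≠ g (v ++ [x]) := fun h => by
      have := g.injective h
      simp at this
    have h3 : (g v).length < (g (v ++ [x])).length := by
      refine lt_of_le_of_ne h1.length_le fun h => h2 (h1.eq_of_length h)
    rw [List.length_append, List.length_singleton]
    omega

lemma PP.length {g : Perm (List Bool)} (hg : PP g) (v : List Bool) : (g v).length = v.length := by
  apply le_antisymm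
  · have := hg.inv.le_length (g v)
    simpa using this
  · exact hg.le_length v

lemma PP.nil {g : Perm (List Bool)} (hg : PP g) : g [] = [] :=
  List.length_eq_zero_iff.mp (by rw [hg.length]; rfl)

/-- the subgroup -/
def L : Subgroup (Perm (List Bool)) where
  carrier := {g | PP g ∧ ∃ a b : Bool, ∀ x y : Bool, g [x, y] = [xor x a, xor y b]}
  mul_mem' := by
    rintro g h ⟨hg, a, b, hab⟩ ⟨hh, c, d, hcd⟩
    refine ⟨hg.mul hh, xor c a, xor d b, fun x y => ?_⟩
    rw [Perm.mul_apply, hcd, hab, Bool.xor_assoc, Bool.xor_assoc]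
  one_mem' := ⟨PP.one, false, false, fun x y => by simp⟩
  inv_mem' := by
    rintro g ⟨hg, a, b, hab⟩
    refine ⟨hg.inv, a, b, fun x y => ?_⟩
    rw [Perm.inv_eq_iff_eq, hab]
    simp

lemma apply2 {g : Perm (List Bool)} (hg : PP g) {a b : Bool}
    (h : ∀ x y : Bool, g [x, y] = [xor x a, xor y b]) (x y : Bool) (w : List Bool) :
    ∃ w', g (x :: y :: w) = xor x a :: xor y b :: w' := by
  have h1 : g [x, y] <+: g (x :: y :: w) := (hg _ _).mp ⟨w, rfl⟩
  rw [h] at h1
  obtain ⟨t, ht⟩ := h1
  exact ⟨t, ht.symm⟩

lemma apply1 {g : Perm (List Bool)} (hg : PP g) {a b : Bool}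
    (h : ∀ x y : Bool, g [x, y] = [xor x a, xor y b]) (x : Bool) : g [x] = [xor x a] := by
  have h1 : g [x] <+: g [x, false] := (hg _ _).mp ⟨[false], rfl⟩
  rw [h] at h1
  have h2 := hg.length [x]
  cases hgx : g [x] with
  | nil => rw [hgx] at h2; simp at h2
  | cons y t =>
    rw [hgx] at h1 h2
    have h3 : t = [] := by
      cases t with
      | nil => rfl
      | cons _ _ => simp at h2
    subst h3
    obtain ⟨s, hs⟩ := h1
    simp only [List.cons_append, List.cons.injEq] at hs
    rw [hs.1]

/-- exchange the first two letters -/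
def swp : List Bool → List Bool
  | x :: y :: w => y :: x :: w
  | w => w

/-- the new action -/
def phiFun (g : Perm (List Bool)) : List Bool → List Bool
  | [] => []
  | [x] => [xor x ((g [false, false]).getD 1 false)]
  | x :: y :: w => swp (g (y :: x :: w))

lemma swp_cc (x y : Bool) (w : List Bool) : swp (x :: y :: w) = y :: x :: w := rfl

lemma phiFun_1 (g : Perm (List Bool)) (x : Bool) :
    phiFun g [x] = [xor x ((g [false, false]).getD 1 false)] := rfl

lemma phiFun_cc (g : Perm (List Bool)) (x y : Bool) (w : List Bool) :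
    phiFun g (x :: y :: w) = swp (g (y :: x :: w)) := rfl

lemma phiFun_mul {g h : Perm (List Bool)} (hg : g ∈ L) (hh : h ∈ L) (v : List Bool) :
    phiFun (g * h) v = phiFun g (phiFun h v) := by
  obtain ⟨hg, a, b, hab⟩ := hg
  obtain ⟨hh, c, d, hcd⟩ := hh
  match v with
  | [] => rfl
  | [x] =>
    rw [phiFun_1, phiFun_1, phiFun_1, Perm.mul_apply, hcd, hab, hab]
    simp
  | x :: y :: w =>
    obtain ⟨w', hw'⟩ := apply2 hh hcd y x w
    rw [phiFun_cc, phiFun_cc, Perm.mul_apply, hw', swp_cc, phiFun_cc]

lemma phiFun_one (v : List Bool) : phiFun 1 v = v := by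
  match v with
  | [] => rfl
  | [x] => simp [phiFun]
  | x :: y :: w => simp [phiFun, swp]

/-- the new permutation -/
def phi (g : L) : Perm (List Bool) where
  toFun := phiFun g.1
  invFun := phiFun (g⁻¹).1
  left_inv v := by
    rw [← phiFun_mul (g⁻¹).2 g.2, ← Subgroup.coe_mul, inv_mul_cancel]
    exact phiFun_one v
  right_inv v := by
    rw [← phiFun_mul g.2 (g⁻¹).2, ← Subgroup.coe_mul, mul_inv_cancel]
    exact phiFun_one v

lemma phi_inv (g : L) : (phi g)⁻¹ = phi g⁻¹ := by
  ext1 v
  rfl

lemma phi_prefix (g : L) (v w : List Bool) (h : v <+: w) : phi g v <+: phi g w := by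
  obtain ⟨g, hg, a, b, hab⟩ := g
  show phiFun g v <+: phiFun g w
  obtain ⟨t, rfl⟩ := h
  match v, t with
  | [], t => exact List.nil_prefix
  | [x], [] => exact List.prefix_rfl
  | [x], y :: t =>
    obtain ⟨w', hw'⟩ := apply2 hg hab y x t
    show phiFun g [x] <+: phiFun g (x :: y :: t)
    rw [phiFun_1, phiFun_cc, hw', hab, swp_cc]
    simp
  | x :: y :: v, t =>
    have h1 : g (y :: x :: v) <+: g (y :: x :: (v ++ t)) := (hg _ _).mp ⟨t, rfl⟩
    show phiFun g (x :: y :: v) <+: phiFun g (x :: y :: (v ++ t))
    rw [phiFun_cc, phiFun_cc]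
    obtain ⟨w1, h2⟩ := apply2 hg hab y x v
    obtain ⟨w2, h3⟩ := apply2 hg hab y x (v ++ t)
    rw [h2, h3] at h1 ⊢
    rw [swp_cc, swp_cc]
    simpa using h1

lemma phi_mem (g : L) : phi g ∈ L := by
  refine ⟨PP.of_forward (phi_prefix g) (fun v w h => ?_), ?_⟩
  · rw [phi_inv]
    exact phi_prefix _ _ _ h
  · obtain ⟨g, hg, a, b, hab⟩ := g
    refine ⟨b, a, fun x y => ?_⟩
    show phiFun g [x, y] = _
    rw [phiFun_cc, hab]
    rfl

lemma phi_apply (g : L) (v : List Bool) : phi g v = phiFun g.1 v := rfl

lemma phi_phi (g : L) : phi ⟨phi g, phi_mem g⟩ = g.1 := by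
  ext1 v
  rw [phi_apply]
  obtain ⟨g, hg, a, b, hab⟩ := g
  match v with
  | [] => exact (hg.nil).symm
  | [x] =>
    rw [apply1 hg hab]
    show [xor x (List.getD (phiFun g [false, false]) 1 false)] = _
    rw [phiFun_cc, hab, swp_cc]
    simp
  | x :: y :: w =>
    show swp (phiFun g (y :: x :: w)) = _
    obtain ⟨w', hw'⟩ := apply2 hg hab x y w
    rw [phiFun_cc, hw', swp_cc, swp_cc]

/-- the automorphism -/
def phiEquiv : L ≃* L where
  toFun g := ⟨phi g, phi_mem g⟩
  invFun g := ⟨phi g, phi_mem g⟩
  left_inv g := Subtype.ext (phi_phi g)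
  right_inv g := Subtype.ext (phi_phi g)
  map_mul' g h := by
    apply Subtype.ext
    ext1 v
    exact phiFun_mul g.2 h.2 v

/-- flip of the first letter -/
def flip1 : Perm (List Bool) where
  toFun v := match v with
    | [] => []
    | x :: w => (!x) :: w
  invFun v := match v with
    | [] => []
    | x :: w => (!x) :: w
  left_inv v := by cases v <;> simp
  right_inv v := by cases v <;> simp

lemma flip1_cons (x : Bool) (w : List Bool) : flip1 (x :: w) = (!x) :: w := rfl

lemma flip1_pp : PP flip1 := by
  intro v w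
  match v, w with
  | [], w => exact ⟨fun _ => List.nil_prefix, fun _ => List.nil_prefix⟩
  | x :: v, [] => exact ⟨fun h => absurd h (by simp), fun h => absurd h (by simp [flip1])⟩
  | x :: v, y :: w =>
    rw [flip1_cons, flip1_cons, List.cons_prefix_cons, List.cons_prefix_cons]
    simp

lemma flip1_mem : flip1 ∈ L :=
  ⟨flip1_pp, true, false, fun x y => by rw [flip1_cons]; simp⟩

/-- the automorphism is not induced by a prefix preserving permutation -/
lemma not_inner (σ : Perm (List Bool)) (hσ : PP σ) :
    ¬ ∀ g : L, ((phiEquiv g : L) : Perm (List Bool)) = σ * (g : Perm (List Bool)) * σ⁻¹ := by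
  intro h
  have h1 := h ⟨flip1, flip1_mem⟩
  have h2 : (phiEquiv ⟨flip1, flip1_mem⟩ : L).1 [false] = [false] := rfl
  rw [h1] at h2
  have h3 : flip1 (σ⁻¹ [false]) = σ⁻¹ [false] := by
    have h4 : σ (flip1 (σ⁻¹ [false])) = [false] := h2
    rw [Perm.eq_inv_iff_eq, h4]
  have h4 : σ⁻¹ [false] = [] := by
    cases hx : σ⁻¹ [false] with
    | nil => rfl
    | cons x w =>
      rw [hx, flip1_cons] at h3
      simp at h3
  rw [Perm.inv_eq_iff_eq, hσ.nil] at h4
  exact absurd h4 (by simp)

/-- translations -/
def trFun : List Bool → List Bool → List Bool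
  | [], w => w
  | _ :: _, [] => []
  | a :: u, x :: w => xor x a :: trFun u w

lemma trFun_trFun (u w : List Bool) : trFun u (trFun u w) = w := by
  induction u generalizing w with
  | nil => rfl
  | cons a u ih =>
    cases w with
    | nil => rfl
    | cons x w => simp [trFun, ih]

lemma trFun_prefix (u v w : List Bool) (h : v <+: w) : trFun u v <+: trFun u w := by
  induction u generalizing v w with
  | nil => exact h
  | cons a u ih =>
    cases v with
    | nil => exact List.nil_prefix
    | cons x v =>
      cases w with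
      | nil => simp at h
      | cons y w =>
        rw [List.cons_prefix_cons] at h
        obtain ⟨rfl, h⟩ := h
        show xor x a :: trFun u v <+: xor x a :: trFun u w
        rw [List.cons_prefix_cons]
        exact ⟨rfl, ih _ _ h⟩

/-- translations as permutations -/
def tr (u : List Bool) : Perm (List Bool) where
  toFun := trFun u
  invFun := trFun u
  left_inv := trFun_trFun u
  right_inv := trFun_trFun u

lemma tr_mem (u : List Bool) : tr u ∈ L := by
  refine ⟨PP.of_forward (trFun_prefix u) (trFun_prefix u), u.getD 0 false, u.getD 1 false,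
    fun x y => ?_⟩
  show trFun u [x, y] = _
  match u with
  | [] => simp [trFun]
  | [a] => simp [trFun]
  | a :: b :: u =>
    cases u <;> simp [trFun]

lemma exists_tr : ∀ v w : List Bool, v.length = w.length → ∃ u, tr u v = w := by
  intro v
  induction v with
  | nil =>
    intro w hw
    exact ⟨[], (List.length_eq_zero_iff.mp hw.symm).symm⟩
  | cons x v ih =>
    intro w hw
    cases w with
    | nil => simp at hw
    | cons y w =>
      obtain ⟨u, hu⟩ := ih w (by simpa using hw)
      refine ⟨xor x y :: u, ?_⟩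
      show xor x (xor x y) :: trFun u v = _
      rw [show trFun u v = w from hu, ← Bool.xor_assoc, Bool.xor_self, Bool.false_xor]

/-! ### rigid stabilizers -/

/-- the elements of `L` fixing all vertices of level at most `n` -/
def fix (n : ℕ) : Subgroup (Perm (List Bool)) where
  carrier := {g | g ∈ L ∧ ∀ w : List Bool, w.length ≤ n → g w = w}
  mul_mem' := by
    rintro g h ⟨hg, hg'⟩ ⟨hh, hh'⟩
    refine ⟨L.mul_mem hg hh, fun w hw => ?_⟩
    show g (h w) = w
    rw [hh' w hw, hg' w hw]
  one_mem' := ⟨L.one_mem, fun w _ => rfl⟩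
  inv_mem' := by
    rintro g ⟨hg, hg'⟩
    refine ⟨L.inv_mem hg, fun w hw => ?_⟩
    rw [Perm.inv_eq_iff_eq, hg' w hw]

/-- restriction to the levels at most `i` -/
def res (i : ℕ) : L →* Perm {w : List Bool // w.length ≤ i} where
  toFun g := g.1.subtypePerm (fun w => by rw [g.2.1.length])
  map_one' := by
    ext w
    rfl
  map_mul' := by
    intro g h
    ext w
    rfl

instance finite_le (i : ℕ) : Finite {w : List Bool // w.length ≤ i} :=
  Set.Finite.to_subtype (List.finite_length_le Bool i)

lemma fix_finiteIndex (i : ℕ) : ((fix i).subgroupOf L).FiniteIndex := by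
  have h1 : (res i).ker ≤ (fix i).subgroupOf L := by
    intro g hg
    rw [Subgroup.mem_subgroupOf]
    refine ⟨g.2, fun w hw => ?_⟩
    have := congrArg (fun p => (p ⟨w, hw⟩).1) hg
    exact this
  exact Subgroup.finiteIndex_of_le h1

/-- the restriction of `g` to the words with a prefix in `U`, as a function -/
noncomputable def grFun (g : Perm (List Bool)) (U : Finset (List Bool)) (v : List Bool) :
    List Bool :=
  open Classical in if ∃ u ∈ U, u <+: v then g v else v

section gr

variable {g : Perm (List Bool)} {n : ℕ} (hg : PP g) (hn : ∀ w : List Bool, w.length ≤ n → g w = w)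
  {U : Finset (List Bool)} (hU : ∀ u ∈ U, u.length = n)

include hg hn hU in
lemma below_iff (v : List Bool) : (∃ u ∈ U, u <+: g v) ↔ ∃ u ∈ U, u <+: v := by
  constructor
  · rintro ⟨u, hu, h⟩
    refine ⟨u, hu, ?_⟩
    rw [hg, hn u (hU u hu).le]
    exact h
  · rintro ⟨u, hu, h⟩
    refine ⟨u, hu, ?_⟩
    rw [hg, hn u (hU u hu).le] at h
    exact h

include hn in
lemma hn_inv (w : List Bool) (hw : w.length ≤ n) : g⁻¹ w = w := by
  rw [Perm.inv_eq_iff_eq, hn w hw]

/-- the restriction of `g` to the words with a prefix in `U` -/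
noncomputable def gr : Perm (List Bool) where
  toFun := grFun g U
  invFun := grFun g⁻¹ U
  left_inv v := by
    classical
    unfold grFun
    by_cases h : ∃ u ∈ U, u <+: v
    · rw [if_pos h, if_pos ((below_iff hg hn hU v).mpr h)]
      simp
    · rw [if_neg h, if_neg h]
  right_inv v := by
    classical
    unfold grFun
    by_cases h : ∃ u ∈ U, u <+: v
    · rw [if_pos h, if_pos ((below_iff hg.inv (hn_inv hn) hU v).mpr h)]
      simp
    · rw [if_neg h, if_neg h]

lemma gr_inv : (gr hg hn hU)⁻¹ = gr hg.inv (hn_inv hn) hU := by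
  ext1 v
  rfl

include hg hn hU in
lemma grFun_prefix (v w : List Bool) (h : v <+: w) : grFun g U v <+: grFun g U w := by
  classical
  unfold grFun
  by_cases h1 : ∃ u ∈ U, u <+: v
  · obtain ⟨u, hu, huv⟩ := h1
    rw [if_pos ⟨u, hu, huv⟩, if_pos ⟨u, hu, huv.trans h⟩]
    exact (hg _ _).mp h
  · rw [if_neg h1]
    by_cases h2 : ∃ u ∈ U, u <+: w
    · rw [if_pos h2]
      obtain ⟨u, hu, huw⟩ := h2
      have h3 : v <+: u := by
        rcases List.prefix_or_prefix_of_prefix h huw with h4 | h4
        · exact h4
        · exact absurd ⟨u, hu, h4⟩ h1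
      have h4 : g v = v := hn v (h3.length_le.trans (hU u hu).le)
      rw [← h4]
      exact (hg _ _).mp h
    · rw [if_neg h2]
      exact h

lemma gr_pp : PP (gr hg hn hU) := by
  apply PP.of_forward
  · exact grFun_prefix hg hn hU
  · rw [gr_inv]
    exact grFun_prefix hg.inv (hn_inv hn) hU

end gr

/-- the rigid stabilizer of the level `n` -/
def Rist (n : ℕ) : Subgroup (Perm (List Bool)) :=
  Subgroup.closure {g : Perm (List Bool) | g ∈ L ∧ ∃ u : List Bool, u.length = n ∧
    ∀ v : List Bool, ¬ u <+: v → g v = v}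

lemma fix_le (n : ℕ) : fix (n + 2) ≤ Rist n := by
  rintro g ⟨hgL, hgf⟩
  have hg : PP g := hgL.1
  have hn : ∀ w : List Bool, w.length ≤ n → g w = w := fun w hw => hgf w (by omega)
  have key : ∀ U : Finset (List Bool), ∀ hU : ∀ u ∈ U, u.length = n, gr hg hn hU ∈ Rist n := by
    classical
    intro U
    induction U using Finset.induction with
    | empty =>
      intro hU
      have : gr hg hn hU = 1 := by
        ext1 v
        show grFun g ∅ v = v
        unfold grFun
        simp
      rw [this]
      exact Subgroup.one_mem _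
    | insert u U hu ih =>
      intro hU
      have hU' : ∀ u ∈ U, u.length = n := fun v hv => hU v (Finset.mem_insert_of_mem hv)
      have hu' : ∀ v ∈ ({u} : Finset (List Bool)), v.length = n := fun v hv => by
        rw [Finset.mem_singleton.mp hv]
        exact hU u (Finset.mem_insert_self _ _)
      have h1 : gr hg hn hU = gr hg hn hu' * gr hg hn hU' := by
        ext1 v
        show grFun g (insert u U) v = grFun g {u} (grFun g U v)
        unfold grFun
        by_cases h2 : ∃ u ∈ U, u <+: v
        · have h3 : ∃ u' ∈ insert u U, u' <+: v := by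
            obtain ⟨a, ha, hav⟩ := h2
            exact ⟨a, Finset.mem_insert_of_mem ha, hav⟩
          rw [if_pos h2, if_pos h3, if_neg]
          rintro ⟨a, ha, hav⟩
          rw [Finset.mem_singleton] at ha
          subst ha
          obtain ⟨b, hb, hbv⟩ := (below_iff hg hn hU' v).mpr h2
          have h4 : a.length = b.length := by rw [hu' a (by simp), hU' b hb]
          have h5 : a = b := by
            rcases List.prefix_or_prefix_of_prefix hav hbv with h6 | h6
            · exact h6.eq_of_length h4
            · exact (h6.eq_of_length h4.symm).symm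
          exact hu (h5 ▸ hb)
        · rw [if_neg h2]
          congr 1
          simp only [Finset.mem_insert, Finset.mem_singleton, exists_eq_or_imp, exists_eq_left,
            eq_iff_iff]
          constructor
          · rintro (h | h)
            · exact h
            · exact absurd h h2
          · intro h
            exact Or.inl h
      rw [h1]
      refine Subgroup.mul_mem _ (Subgroup.subset_closure ?_) (ih hU')
      refine ⟨⟨gr_pp _ _ _, false, false, fun x y => ?_⟩, u, hu' u (by simp), ?_⟩
      · show grFun g {u} [x, y] = _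
        unfold grFun
        rw [hgf [x, y] (by simp)]
        simp
      · intro v hv
        show grFun g {u} v = v
        unfold grFun
        rw [if_neg]
        rintro ⟨a, ha, hav⟩
        rw [Finset.mem_singleton] at ha
        subst ha
        exact hv hav
  let U : Finset (List Bool) := (List.finite_length_eq Bool n).toFinset
  have hU : ∀ u ∈ U, u.length = n := fun u hu => by
    have := (List.finite_length_eq Bool n).mem_toFinset.mp hu
    exact this
  have h1 : gr hg hn hU = g := by
    ext1 v
    show grFun g U v = g v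
    unfold grFun
    by_cases h2 : ∃ u ∈ U, u <+: v
    · rw [if_pos h2]
    · rw [if_neg h2, hn]
      by_contra hcon
      apply h2
      refine ⟨v.take n, ?_, List.take_prefix _ _⟩
      apply (List.finite_length_eq Bool n).mem_toFinset.mpr
      show (v.take n).length = n
      rw [List.length_take]
      omega
  rw [← h1]
  exact key U hU

lemma index_ne_zero (n : ℕ) : ((Rist n).subgroupOf L).index ≠ 0 := by
  have h1 : (fix (n + 2)).subgroupOf L ≤ (Rist n).subgroupOf L := by
    intro g hg
    rw [Subgroup.mem_subgroupOf] at hg ⊢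
    exact fix_le n hg
  have := fix_finiteIndex (n + 2)
  exact (Subgroup.finiteIndex_of_le h1).index_ne_zero

/-- the statement for any model of the binary tree -/
theorem main {V : Type} (pre : V → V → Prop) (len : V → ℕ) (e : List Bool ≃ V)
    (hpre : ∀ v w, pre (e v) (e w) ↔ v <+: w) (hlen : ∀ v, len (e v) = v.length) :
    ∃ L : Subgroup (Perm V), (∀ g ∈ L, ∀ v w, (pre v w ↔ pre (g v) (g w))) ∧
      (∀ v w, len v = len w → ∃ g ∈ L, g v = w) ∧
      (∀ n : ℕ, ((Subgroup.closure {g : Perm V | g ∈ L ∧ ∃ u, len u = n ∧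
        ∀ v, ¬ pre u v → g v = v}).subgroupOf L).index ≠ 0) ∧
      ∃ φ : L ≃* L, ¬ ∃ σ : Perm V, (∀ v w, (pre v w ↔ pre (σ v) (σ w))) ∧
        ∀ g : L, ((φ g : L) : Perm V) = σ * (g : Perm V) * σ⁻¹ := by
  have hpre' : ∀ v w, pre v w ↔ e.symm v <+: e.symm w := fun v w => by
    rw [← hpre, e.apply_symm_apply, e.apply_symm_apply]
  have hlen' : ∀ v, len v = (e.symm v).length := fun v => by
    rw [← hlen, e.apply_symm_apply]
  let E : Perm (List Bool) ≃* Perm V := e.permCongrHom
  have hE : ∀ g v, E g v = e (g (e.symm v)) := fun g v => rfl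
  let EL : L ≃* L.map E.toMonoidHom := E.subgroupMap L
  have hEL : ∀ g, ((EL g : L.map E.toMonoidHom) : Perm V) = E g.1 := fun g => rfl
  refine ⟨L.map E.toMonoidHom, ?_, ?_, ?_, (EL.symm.trans phiEquiv).trans EL, ?_⟩
  · rintro _ ⟨g, hg, rfl⟩ v w
    show _ ↔ pre (E g v) (E g w)
    rw [hpre', hE, hE, hpre]
    exact hg.1 _ _
  · intro v w hvw
    rw [hlen', hlen'] at hvw
    obtain ⟨u, hu⟩ := exists_tr _ _ hvw
    refine ⟨E (tr u), ⟨tr u, tr_mem u, rfl⟩, ?_⟩
    rw [hE, hu, e.apply_symm_apply]
  · intro n
    have h1 : Subgroup.closure {g : Perm V | g ∈ L.map E.toMonoidHom ∧ ∃ u, len u = n ∧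
        ∀ v, ¬ pre u v → g v = v} = (Rist n).map E.toMonoidHom := by
      unfold Rist
      rw [MonoidHom.map_closure]
      congr 1
      ext g
      constructor
      · rintro ⟨⟨g, hg, rfl⟩, u, hu, h⟩
        refine ⟨g, ⟨hg, e.symm u, ?_, ?_⟩, rfl⟩
        · rw [← hlen', hu]
        · intro v hv
          have h2 := h (e v) (by rw [hpre', e.symm_apply_apply]; exact hv)
          have h3 : e (g (e.symm (e v))) = e v := h2
          rw [e.symm_apply_apply] at h3
          exact e.injective h3
      · rintro ⟨g, ⟨hg, u, hu, h⟩, rfl⟩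
        refine ⟨⟨g, hg, rfl⟩, e u, by rw [hlen, hu], ?_⟩
        intro v hv
        rw [hpre', e.symm_apply_apply] at hv
        show e (g (e.symm v)) = v
        rw [h _ hv, e.apply_symm_apply]
    rw [h1]
    have h2 := index_ne_zero n
    change (Subgroup.relIndex _ _) ≠ 0 at h2
    show (Subgroup.relIndex _ _) ≠ 0
    rwa [Subgroup.relIndex_map_map_of_injective _ _ E.injective]
  · rintro ⟨σ, hσ, h⟩
    apply not_inner (E.symm σ)
    · intro v w
      have h1 := hσ (e v) (e w)
      rw [hpre] at h1
      rw [h1, hpre']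
      rfl
    · intro g
      have h1 := h (EL g)
      have h2 : (((EL.symm.trans phiEquiv).trans EL) (EL g) : L.map E.toMonoidHom) =
        EL (phiEquiv g) := by
        show EL (phiEquiv (EL.symm (EL g))) = _
        rw [MulEquiv.symm_apply_apply]
      rw [h2, hEL, hEL] at h1
      apply E.injective
      rw [h1, map_mul, map_mul, map_inv, MulEquiv.apply_symm_apply]


end Pool.Agent.R632.Klein
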