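import Pool.Agent.R632.Branch
import Pool.Agent.R632.KS

/-! The group of all portraits has trivial centre and is directly indecomposable. -/

set_option linter.unusedSectionVars false

namespace Pool.Agent.R632.Port

namespace W

open scoped commutatorElement

variable {X : Type} [AddCommGroup X] [DecidableEq X] [Finite X]

lemma not_prefix {v w : List X} (hl : v.length = w.length) (hne : v ≠ w) : ¬ v <+: w :=
  fun h => hne (h.eq_of_length hl)

lemma put_comm {v w : List X} (hl : v.length = w.length) (hne : v ≠ w) (g h : W X) :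
    put v g * put w h = put w h * put v g := by
  have h1 := conj_put (put v g) h w
  rw [put_act_of_not g (not_prefix hl hne), put_secv_of_not g (not_prefix hl hne)
    (not_prefix hl.symm hne.symm), one_mul, inv_one, mul_one] at h1
  exact mul_inv_eq_iff_eq_mul.mp h1

lemma exists_moved {a : W X} (ha : a ≠ 1) : ∃ v, a.act v ≠ v := by
  by_contra h
  push Not at h
  apply ha
  apply act_injective
  funext v
  rw [h, act_one]

lemma moved_append {a : W X} {v : List X} (h : a.act v ≠ v) (u : List X) :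
    a.act (v ++ u) ≠ v ++ u := by
  obtain ⟨u', hu'⟩ := a.act_append v u
  rw [hu']
  intro h1
  exact h (List.append_inj_left h1 (act_length a v))

lemma exists_act_eq : ∀ v w : List X, v.length = w.length → ∃ g : W X, g.act v = w := by
  intro v
  induction v with
  | nil =>
    intro w hw
    exact ⟨1, by rw [act_one, (List.length_eq_zero_iff.mp hw.symm)]⟩
  | cons x v ih =>
    intro w hw
    cases w with
    | nil => simp at hw
    | cons y w =>
      obtain ⟨k, hk⟩ := ih w (by simpa using hw)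
      refine ⟨al (y - x) * at1 x k, ?_⟩
      rw [act_mul]
      simp only [act, at1_root, at1_sec_self, hk, al_root, al_sec, act_one]
      congr 1
      abel

lemma al_ne [Nontrivial X] : ∃ s : X, al s ≠ (1 : W X) := by
  obtain ⟨s, hs⟩ := exists_ne (0 : X)
  refine ⟨s, fun h => hs ?_⟩
  exact congrArg (fun g : W X => g.l []) h

lemma centerless [Nontrivial X] : KS.Centerless (W X) := by
  intro z hz
  by_contra hne
  obtain ⟨v, hv⟩ := exists_moved hne
  obtain ⟨s, hs⟩ := al_ne (X := X)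
  have h1 := conj_put z (al s) v
  rw [hz, mul_inv_cancel_right] at h1
  have h2 := congrArg (fun g : W X => g.secv v) h1
  have hl : (z.act v).length = v.length := act_length _ _
  rw [put_secv_self, put_secv_of_not _ (not_prefix hl hv) (not_prefix hl.symm hv.symm)] at h2
  exact hs h2

lemma normal_of {A B : Subgroup (W X)} (h1 : ∀ a ∈ A, ∀ b ∈ B, a * b = b * a)
    (h2 : ∀ g : W X, ∃ a ∈ A, ∃ b ∈ B, g = a * b) {a : W X} (ha : a ∈ A) (g : W X) :
    g * a * g⁻¹ ∈ A := by
  obtain ⟨a', ha', b', hb', rfl⟩ := h2 g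
  have h3 : a' * b' * a * (a' * b')⁻¹ = a' * a * a'⁻¹ := by
    calc a' * b' * a * (a' * b')⁻¹ = a' * (b' * a) * b'⁻¹ * a'⁻¹ := by group
      _ = a' * (a * b') * b'⁻¹ * a'⁻¹ := by rw [h1 a ha b' hb']
      _ = a' * a * a'⁻¹ := by group
  rw [h3]
  exact A.mul_mem (A.mul_mem ha' ha) (A.inv_mem ha')

lemma put_comm_mem {A B : Subgroup (W X)} (h1 : ∀ a ∈ A, ∀ b ∈ B, a * b = b * a)
    (h2 : ∀ g : W X, ∃ a ∈ A, ∃ b ∈ B, g = a * b) {a : W X} (ha : a ∈ A) {v : List X}
    (hv : a.act v ≠ v) (g h : W X) : put v ⁅g⁻¹, h⁆ ∈ A := by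
  have hl : (a.act v).length = v.length := act_length _ _
  obtain ⟨k, hk⟩ : ∃ k, k = a.secv v * g * (a.secv v)⁻¹ := ⟨_, rfl⟩
  have e1 : ⁅a, put v g⁆ = put (a.act v) k * put v g⁻¹ := by
    rw [commutatorElement_def, conj_put, map_inv, hk]
  have e2 : ⁅⁅a, put v g⁆, put v h⁆ = put v ⁅g⁻¹, h⁆ := by
    have e3 := put_comm hl hv k (g⁻¹ * h * g)
    have e7 : put v ⁅g⁻¹, h⁆ = put v (g⁻¹ * h * g) * put v h⁻¹ := by
      rw [commutatorElement_def, inv_inv, map_mul]
    rw [e1, e7, commutatorElement_def]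
    have e4 : put v g⁻¹ * put v h * put v g = put v (g⁻¹ * h * g) := by
      rw [map_mul, map_mul]
    have e5 : (put (a.act v) k * put v g⁻¹) * put v h * (put (a.act v) k * put v g⁻¹)⁻¹ =
        put (a.act v) k * (put v (g⁻¹ * h * g)) * (put (a.act v) k)⁻¹ := by
      rw [mul_inv_rev, ← map_inv (put v), inv_inv, ← e4]
      group
    rw [e5, e3, mul_inv_cancel_right, ← map_inv (put v) h]
  rw [← e2]
  have e6 : ∀ x ∈ A, ∀ y : W X, ⁅x, y⁆ ∈ A := by
    intro x hx y
    have : ⁅x, y⁆ = x * (y * x⁻¹ * y⁻¹) := by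
      rw [commutatorElement_def]
      group
    rw [this]
    exact A.mul_mem hx (normal_of h1 h2 (A.inv_mem hx) y)
  exact e6 _ (e6 _ ha _) _

lemma indec [Nontrivial X] : KS.Indec (W X) := by
  intro A B h1 h2
  by_contra hcon
  push Not at hcon
  obtain ⟨hA, hB⟩ := hcon
  obtain ⟨a, ha, ha1⟩ := A.bot_or_exists_ne_one.resolve_left hA
  obtain ⟨b, hb, hb1⟩ := B.bot_or_exists_ne_one.resolve_left hB
  obtain ⟨v, hv⟩ := exists_moved ha1
  obtain ⟨v', hv'⟩ := exists_moved hb1
  have hv1 := moved_append hv (List.replicate v'.length 0)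
  have hv2 := moved_append hv' (List.replicate v.length 0)
  set v₁ := v ++ List.replicate v'.length 0
  set v₂ := v' ++ List.replicate v.length 0
  have hlen : v₁.length = v₂.length := by
    simp [v₁, v₂, add_comm]
  obtain ⟨t, ht⟩ := exists_act_eq v₁ v₂ hlen
  have ha' : t * a * t⁻¹ ∈ A := normal_of h1 h2 ha t
  have hv3 : (t * a * t⁻¹).act v₂ ≠ v₂ := by
    rw [act_mul, act_mul, ← ht, act_inv_act]
    intro h
    have := congrArg t⁻¹.act h
    rw [act_inv_act, act_inv_act] at this
    exact hv1 this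
  have h3 : ∀ g h : W X, ⁅g, h⁆ = 1 := by
    intro g h
    have h4 := put_comm_mem h1 h2 ha' hv3 g⁻¹ h
    have h5 := put_comm_mem (A := B) (B := A) (fun b hb a ha => (h1 a ha b hb).symm) (fun g => by
      obtain ⟨a, ha, b, hb, rfl⟩ := h2 g
      exact ⟨b, hb, a, ha, h1 a ha b hb⟩) hb hv2 g⁻¹ h
    rw [inv_inv] at h4 h5
    have h6 : put v₂ ⁅g, h⁆ = 1 := by
      apply centerless
      intro x
      obtain ⟨a, ha, b, hb, rfl⟩ := h2 x
      rw [← mul_assoc, ← h1 a ha _ h5, mul_assoc, h1 _ h4 b hb, mul_assoc]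
    have h7 := congrArg (fun g : W X => g.secv v₂) h6
    rwa [put_secv_self, secv_one] at h7
  obtain ⟨s, hs⟩ := al_ne (X := X)
  have h4 : ∀ z : W X, z = 1 := fun z => centerless z (fun g =>
    commutatorElement_eq_one_iff_mul_comm.mp (h3 z g))
  exact hs (h4 _)

lemma nontrivial [Nontrivial X] : Nontrivial (W X) := by
  obtain ⟨s, hs⟩ := al_ne (X := X)
  exact ⟨⟨_, _, hs⟩⟩

end W

end Pool.Agent.R632.Port
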