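import Pool.Agent.R632.WInd

/-! Topology on the group of portraits. -/

set_option linter.unusedSectionVars false

namespace Pool.Agent.R632.Port

open Topology

/-- The topology of pointwise convergence on the permutations of the words (words are discrete). -/
instance permTop (X : Type) : TopologicalSpace (Equiv.Perm (List X)) :=
  TopologicalSpace.induced (fun g => (g : List X → List X))
    (@Pi.topologicalSpace (List X) (fun _ => List X) (fun _ => ⊥))

namespace W

variable {X : Type}

/-- the topology of pointwise convergence of labels -/
instance wTop : TopologicalSpace (W X) :=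
  TopologicalSpace.induced (fun g => g.l)
    (@Pi.topologicalSpace (List X) (fun _ => X) (fun _ => ⊥))

variable {Y : Type*} [TopologicalSpace Y]

lemma bot_iff {Z : Type*} (f : Y → Z) : (@Continuous Y Z _ ⊥ f) ↔ IsLocallyConstant f := by
  let _ : TopologicalSpace Z := ⊥
  have : DiscreteTopology Z := ⟨rfl⟩
  exact (IsLocallyConstant.iff_continuous f).symm

lemma continuous_W {f : Y → W X} :
    Continuous f ↔ ∀ w, IsLocallyConstant (fun y => (f y).l w) := by
  rw [continuous_induced_rng, @continuous_pi_iff _ _ _ _ (fun _ => ⊥)]
  exact forall_congr' fun w => bot_iff _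

lemma continuous_P {f : Y → Equiv.Perm (List X)} :
    Continuous f ↔ ∀ w, IsLocallyConstant (fun y => f y w) := by
  rw [continuous_induced_rng, @continuous_pi_iff _ _ _ _ (fun _ => ⊥)]
  exact forall_congr' fun w => bot_iff _

lemma lc_l (w : List X) : IsLocallyConstant (fun g : W X => g.l w) :=
  continuous_W.mp continuous_id w

lemma lc_P (w : List X) : IsLocallyConstant (fun g : Equiv.Perm (List X) => g w) :=
  continuous_P.mp continuous_id w

lemma continuous_sec [AddCommGroup X] (x : X) : Continuous (fun g : W X => g.sec x) :=
  continuous_W.mpr fun w => lc_l (x :: w)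

lemma lc_act [AddCommGroup X] (w : List X) : IsLocallyConstant (fun g : W X => g.act w) := by
  induction w with
  | nil => exact IsLocallyConstant.const _
  | cons x w ih =>
    exact (lc_l ([] : List X)).comp₂ (ih.comp_continuous (continuous_sec x))
      (fun a b => (x + a) :: b)

lemma continuous_toPerm [AddCommGroup X] : Continuous (toPerm : W X →* Equiv.Perm (List X)) :=
  continuous_P.mpr lc_act

instance [Finite X] : CompactSpace (W X) := by
  let _ : TopologicalSpace X := ⊥
  have h1 : IsInducing (fun g : W X => g.l) := ⟨rfl⟩
  have h2 : Function.Surjective (fun g : W X => g.l) := fun f => ⟨⟨f⟩, rfl⟩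
  rw [← isCompact_univ_iff, h1.isCompact_iff, Set.image_univ, h2.range_eq]
  exact isCompact_univ

instance : T2Space (W X) := by
  let _ : TopologicalSpace X := ⊥
  have : DiscreteTopology X := ⟨rfl⟩
  exact T2Space.of_injective_continuous (f := fun g : W X => g.l) (fun g h hgh => W.ext hgh)
    continuous_induced_dom

instance : T2Space (Equiv.Perm (List X)) := by
  let _ : TopologicalSpace (List X) := ⊥
  have : DiscreteTopology (List X) := ⟨rfl⟩
  exact T2Space.of_injective_continuous (f := fun g : Equiv.Perm (List X) => (g : List X → List X))
    (fun g h hgh => Equiv.ext (congrFun hgh)) continuous_induced_dom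

/-- an injective continuous homomorphism from a compact group is an isomorphism onto its range -/
noncomputable def rangeEquiv {A B : Type*} [Group A] [TopologicalSpace A] [CompactSpace A] [Group B]
    [TopologicalSpace B] [T2Space B] (f : A →* B) (hf : Continuous f)
    (hi : Function.Injective f) : A ≃ₜ* f.range :=
  ContinuousMulEquiv.mk' (Continuous.homeoOfEquivCompactToT2
    (f := (MonoidHom.ofInjective hi).toEquiv)
    (Continuous.subtype_mk hf _)) (fun x y => map_mul (MonoidHom.ofInjective hi) x y)

variable [AddCommGroup X] [DecidableEq X]

lemma continuous_node {f : Y → X → W X} (hf : ∀ x, Continuous (fun y => f y x)) :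
    Continuous (fun y => node (f y)) := by
  rw [continuous_W]
  intro w
  cases w with
  | nil => exact IsLocallyConstant.const _
  | cons x w => exact continuous_W.mp (hf x) w

/-- `n + 1` commuting copies of the group: at the vertices `s`, `0 s`, ..., `0 ... 0 s` and
`0 ... 0` -/
def comb (s : X) : (n : ℕ) → (Fin (n + 1) → W X) → W X
  | 0, f => f 0
  | n + 1, f => node (fun x => if x = 0 then comb s n (fun i => f i.succ)
      else if x = s then f 0 else 1)

lemma comb_mul (s : X) (n : ℕ) (f g : Fin (n + 1) → W X) :
    comb s n (f * g) = comb s n f * comb s n g := by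
  induction n with
  | zero => rfl
  | succ n ih =>
    simp only [comb]
    rw [← map_mul]
    congr 1
    funext x
    by_cases hx : x = 0
    · simp only [Pi.mul_apply, hx, if_true]
      exact ih (fun i => f i.succ) (fun i => g i.succ)
    · by_cases hs : x = s
      · simp only [Pi.mul_apply, if_neg hx, if_pos hs]
      · simp only [Pi.mul_apply, if_neg hx, if_neg hs, one_mul]

/-- `comb` as a homomorphism -/
def combHom (s : X) (n : ℕ) : (Fin (n + 1) → W X) →* W X :=
  MonoidHom.mk' (comb s n) (comb_mul s n)

lemma comb_continuous (s : X) (n : ℕ) : Continuous (comb s n) := by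
  induction n with
  | zero => exact continuous_apply 0
  | succ n ih =>
    refine continuous_node fun x => ?_
    by_cases hx : x = 0
    · simp only [hx, if_true]
      exact ih.comp (continuous_pi fun i => continuous_apply i.succ)
    · simp only [hx, if_false]
      by_cases hs : x = s
      · simp only [hs, if_true]
        exact continuous_apply 0
      · simp only [hs, if_false]
        exact continuous_const

lemma comb_injective {s : X} (hs : s ≠ 0) (n : ℕ) : Function.Injective (comb s n) := by
  induction n with
  | zero =>
    intro f g h
    funext i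
    rw [Fin.fin_one_eq_zero i]
    exact h
  | succ n ih =>
    intro f g h
    have h0 := congrArg (fun z : W X => z.sec 0) h
    have h1 := congrArg (fun z : W X => z.sec s) h
    simp only [comb, node_sec, if_true, hs, if_false] at h0 h1
    funext i
    refine Fin.cases h1 (fun i => ?_) i
    exact congrFun (ih h0) i

lemma isOpen_range_comb {s : X} (hs : ∀ x : X, x = 0 ∨ x = s) (hs0 : s ≠ 0) (n : ℕ) :
    IsOpen (Set.range (comb s n)) := by
  induction n with
  | zero =>
    have : Set.range (comb s 0) = Set.univ := by
      rw [Set.range_eq_univ]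
      exact fun g => ⟨fun _ => g, rfl⟩
    rw [this]
    exact isOpen_univ
  | succ n ih =>
    have : Set.range (comb s (n + 1)) = {g : W X | g.l [] = 0} ∩
        (fun g : W X => g.sec 0) ⁻¹' Set.range (comb s n) := by
      ext g
      constructor
      · rintro ⟨f, rfl⟩
        refine ⟨rfl, ⟨fun i => f i.succ, ?_⟩⟩
        show _ = (comb s (n + 1) f).sec 0
        simp only [comb, node_sec, if_true]
      · rintro ⟨h0, ⟨f, hf⟩⟩
        refine ⟨Fin.cons (g.sec s) f, ?_⟩
        apply ext'
        · rw [show g.l [] = 0 from h0]
          rfl
        · intro x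
          rcases hs x with rfl | rfl
          · simp only [comb, node_sec, if_true]
            exact hf
          · simp only [comb, node_sec, hs0, if_false, if_true]
            rfl
    rw [this]
    exact ((lc_l ([] : List X)).isOpen_fiber 0).inter (ih.preimage (continuous_sec 0))

/-- the full power at level `n` -/
lemma pow_equiv [Fintype X] (n : ℕ) : ∃ (I : Type) (_ : Fintype I) (_ : DecidableEq I),
    Fintype.card I = Fintype.card X ^ n ∧ Nonempty ((I → W X) ≃* Pow (⊤ : Subgroup (W X)) n) := by
  induction n with
  | zero =>
    refine ⟨Unit, inferInstance, inferInstance, by simp, ⟨?_⟩⟩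
    exact (MulEquiv.piUnique (fun _ : Unit => W X)).trans Subgroup.topEquiv.symm
  | succ n ih =>
    obtain ⟨I, h1, h2, h3, ⟨e⟩⟩ := ih
    refine ⟨X × I, inferInstance, inferInstance, by
      rw [Fintype.card_prod, h3, pow_succ, mul_comm], ⟨?_⟩⟩
    let φ : (X × I → W X) →* W X :=
      MonoidHom.mk' (fun f => node (fun x => (e (fun i => f (x, i)) : W X))) (by
        intro f g
        rw [← map_mul]
        congr 1
        funext x
        rw [Pi.mul_apply, ← Subgroup.coe_mul, ← map_mul]
        rfl)
    have hφ : Function.Injective φ := by
      intro f g h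
      funext ⟨x, i⟩
      have h4 := congrArg (fun z : W X => z.sec x) h
      have h5 : (e (fun i => f (x, i)) : W X) = e (fun i => g (x, i)) := h4
      exact congrFun (e.injective (Subtype.ext h5)) i
    have hr : φ.range = Pow (⊤ : Subgroup (W X)) (n + 1) := by
      ext g
      rw [mem_Pow_succ]
      constructor
      · rintro ⟨f, rfl⟩
        exact ⟨rfl, fun x => (e (fun i => f (x, i))).2⟩
      · rintro ⟨h0, h⟩
        refine ⟨fun p => e.symm ⟨g.sec p.1, h p.1⟩ p.2, ?_⟩
        show node (fun x => (e (fun i => e.symm ⟨g.sec x, h x⟩ i) : W X)) = g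
        have : (fun x => (e (fun i => e.symm ⟨g.sec x, h x⟩ i) : W X)) = g.sec := by
          funext x
          have h6 : (fun i => e.symm ⟨g.sec x, h x⟩ i) = e.symm ⟨g.sec x, h x⟩ := rfl
          rw [h6, e.apply_symm_apply]
        rw [this, node_sec_eq h0]
    exact (MonoidHom.ofInjective hφ).trans (MulEquiv.subgroupCongr hr)

variable [Finite X]

/-- the full rigid stabilizer has finite index -/
lemma index_pow_top (n : ℕ) : (Pow (⊤ : Subgroup (W X)) n).index ≠ 0 := by
  have h0 : ∀ n, IsOpen (Pow (⊤ : Subgroup (W X)) n : Set (W X)) := by
    intro n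
    induction n with
    | zero => exact isOpen_univ
    | succ n ih =>
      have : (Pow (⊤ : Subgroup (W X)) (n + 1) : Set (W X)) = {g : W X | g.l [] = 0} ∩
          ⋂ x, (fun g : W X => g.sec x) ⁻¹' (Pow (⊤ : Subgroup (W X)) n : Set (W X)) := by
        ext g
        rw [SetLike.mem_coe, mem_Pow_succ]
        simp only [Set.mem_inter_iff, Set.mem_iInter]
        rfl
      rw [this]
      exact ((lc_l ([] : List X)).isOpen_fiber 0).inter
        (isOpen_iInter_of_finite fun x => ih.preimage (continuous_sec x))
  have h1 : SeparatelyContinuousMul (W X) := by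
    constructor
    · intro g
      rw [continuous_W]
      intro w
      exact (lc_act w).comp₂ (lc_l w) (fun a b => g.l a + b)
    · intro g
      rw [continuous_W]
      intro w
      exact (lc_l (g.act w)).comp (fun a => a + g.l w)
  have h2 := Subgroup.quotient_finite_of_isOpen _ (h0 n)
  have h3 : (Pow (⊤ : Subgroup (W X)) n).FiniteIndex := Subgroup.finiteIndex_of_finite_quotient
  exact h3.index_ne_zero

end W

end Pool.Agent.R632.Port
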